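import Mathlib

/-!
# WP-ALTN: the proper subgroups of `A_4` are nilpotent (complete)
-/

set_option autoImplicit false

namespace H86.WP

private theorem altn_card : Nat.card (alternatingGroup (Fin 4)) = 12 := by
  have h1 := two_mul_nat_card_alternatingGroup (α := Fin 4)
  rw [Nat.card_eq_fintype_card (α := Equiv.Perm (Fin 4)), Fintype.card_perm, Fintype.card_fin] at h1
  have h2 : Nat.factorial 4 = 24 := rfl
  omega

private theorem altn_index (U : Subgroup (alternatingGroup (Fin 4))) : U.index ≠ 2 := by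
  intro h
  have h1 : ∀ g : alternatingGroup (Fin 4), g * g ∈ U :=
    fun g => Subgroup.mul_self_mem_of_index_two h g
  have h2 : U.map (alternatingGroup (Fin 4)).subtype = alternatingGroup (Fin 4) := by
    apply le_antisymm
    · rintro x ⟨y, -, rfl⟩
      exact y.2
    · refine (Equiv.Perm.closure_three_cycles_eq_alternating (α := Fin 4)).ge.trans ?_
      rw [Subgroup.closure_le]
      intro σ hσ
      have h3 : σ ∈ alternatingGroup (Fin 4) := hσ.mem_alternatingGroup
      refine ⟨⟨σ, h3⟩, ?_, rfl⟩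
      have h4 : σ ^ 3 = 1 := by
        rw [← hσ.orderOf]
        exact pow_orderOf_eq_one σ
      have h5 : (⟨σ, h3⟩ : alternatingGroup (Fin 4)) =
          (⟨σ, h3⟩ * ⟨σ, h3⟩) * (⟨σ, h3⟩ * ⟨σ, h3⟩) := by
        apply Subtype.ext
        change σ = (σ * σ) * (σ * σ)
        have h6 : (σ * σ) * (σ * σ) = σ * σ ^ 3 := by
          rw [pow_succ, pow_two]
          simp only [mul_assoc]
        rw [h6, h4, mul_one]
      rw [h5]
      exact U.mul_mem (h1 _) (h1 _)
  have h7 : U = ⊤ := by
    rw [eq_top_iff]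
    intro x _
    have h8 : (x : Equiv.Perm (Fin 4)) ∈ U.map (alternatingGroup (Fin 4)).subtype := by
      rw [h2]
      exact x.2
    obtain ⟨y, hy, hxy⟩ := h8
    have h9 : y = x := Subtype.ext hxy
    rw [← h9]
    exact hy
  rw [h7, Subgroup.index_top] at h
  omega

theorem altn (U : Subgroup (alternatingGroup (Fin 4))) (hU : U ≠ ⊤) : Group.IsNilpotent U := by
  have h1 := U.card_mul_index
  rw [altn_card] at h1
  have h2 : U.index ≠ 1 := fun h => hU (Subgroup.index_eq_one.1 h)
  have h3 := altn_index U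
  have hd : Nat.card U ∣ 12 := ⟨_, h1.symm⟩
  have h4 : Nat.card U ∈ Nat.divisors 12 := Nat.mem_divisors.2 ⟨hd, by norm_num⟩
  have h5 : Nat.divisors 12 = {1, 2, 3, 4, 6, 12} := by decide
  rw [h5] at h4
  simp only [Finset.mem_insert, Finset.mem_singleton] at h4
  have hf2 : Fact (Nat.Prime 2) := ⟨Nat.prime_two⟩
  have hf3 : Fact (Nat.Prime 3) := ⟨Nat.prime_three⟩
  rcases h4 with h | h | h | h | h | h
  · exact (IsPGroup.of_card (p := 2) (n := 0) (by rw [h]; norm_num)).isNilpotent
  · exact (IsPGroup.of_card (p := 2) (n := 1) (by rw [h]; norm_num)).isNilpotent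
  · exact (IsPGroup.of_card (p := 3) (n := 1) (by rw [h]; norm_num)).isNilpotent
  · exact (IsPGroup.of_card (p := 2) (n := 2) (by rw [h]; norm_num)).isNilpotent
  · rw [h] at h1
    omega
  · rw [h] at h1
    omega

end H86.WP
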