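import Pool.Agent.H86.WP.Def
import Pool.Agent.H38.BG.DUp
import Pool.Agent.H38.BG.DRho
import Pool.Agent.H38.BG.DLow
import Pool.Agent.H38.ML.Small
import Pool.Agent.H38.ML.SpecBridge
import Pool.Agent.H38.ML.Asym

/-!
# WP-NK: from homomorphisms to `n_K(G, B)`, every transitive group `G` (complete)

Proof. As `H38.BG.afu`, `H38.WM.nkU`: a class of `G`-fields gives a surjective `ρ` of finite type, injectively. The image `J ≠ 1` of an
inertia group has at most `n - ind(G)` orbits, so the product of the norms of the ramified primes is at most `B^(1/ind(G))` (`dlow`).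
-/

set_option autoImplicit false

open scoped NumberField
open IsDedekindDomain NumberField H38.ML H63.MA H38.WM

noncomputable section

namespace H86.WP

theorem ind_le {n : ℕ} (G : Subgroup (Equiv.Perm (Fin n))) (J : Subgroup (Equiv.Perm (Fin n)))
    (hJ : J ≤ G) (h1 : J ≠ ⊥) : H38.ML.indG G ≤ n - orbs J := by
  obtain ⟨⟨g, hg⟩, hg1⟩ := (Subgroup.ne_bot_iff_exists_ne_one (H := J)).1 h1
  have hg2 : g ≠ 1 := fun h => hg1 (Subtype.ext h)
  have h2 : H38.ML.indG G ≤ H38.ML.ind g := Nat.sInf_le ⟨g, hJ hg, hg2, rfl⟩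
  have h3 := H38.BG.dup_orbs_anti (Subgroup.zpowers_le.2 hg : Subgroup.zpowers g ≤ J)
  unfold H38.ML.ind at h2
  omega

theorem indG_pos {n : ℕ} (hn : 2 ≤ n) (G : Subgroup (Equiv.Perm (Fin n)))
    (hG : MulAction.IsPretransitive G (Fin n)) : 0 < H38.ML.indG G := by
  have hne : {k | ∃ g ∈ G, g ≠ 1 ∧ H38.ML.ind g = k}.Nonempty := by
    obtain ⟨⟨g, hg⟩, h⟩ := hG.exists_smul_eq (⟨0, by omega⟩ : Fin n) ⟨1, by omega⟩
    refine ⟨_, g, hg, ?_, rfl⟩
    rintro rfl
    have h1 : (⟨0, by omega⟩ : Fin n) = ⟨1, by omega⟩ := h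
    rw [Fin.mk.injEq] at h1
    omega
  obtain ⟨g, hg, hg1, h⟩ := Nat.sInf_mem hne
  unfold H38.ML.indG
  rw [← h]
  exact ind_pos g hg1

private theorem nk_disc (K : IntermediateField ℚ QBar) [NumberField K] (L : IntermediateField K QBar)
    (h : NumberField L) : H38.ML.relDisc K L = Spec.relDisc K L := by
  unfold H38.ML.relDisc Spec.relDisc
  rw [dif_pos h]

theorem nkg {n : ℕ} (hn : 2 ≤ n) (G : Subgroup (Equiv.Perm (Fin n)))
    (hG : MulAction.IsPretransitive G (Fin n)) (K : IntermediateField ℚ QBar) [NumberField K]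
    (hRB : ∀ Q : DP K QBar, RB Q G) (ε : ℝ) (hε : 0 < ε) :
    ∃ C : ℝ, 0 < C ∧ ∀ B : ℝ, 1 ≤ B → Spec.nK K QBar G B ≤
      ((⌊C * B ^ (1 / (Spec.indG G : ℝ) + ε)⌋₊ : ℕ) : ℕ∞) := by
  classical
  have hgl := fun v : Pl K => gloc_over K QBar v.asIdeal v.isPrime
  choose P hPp hPu using hgl
  let Q : DP K QBar := ⟨P, hPp, hPu⟩
  rw [← indG_eq_spec]
  set a := H38.ML.indG G with ha
  have ha0 : 0 < a := indG_pos hn G hG
  have haR : (0 : ℝ) < (a : ℝ) := by exact_mod_cast ha0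
  obtain ⟨C, hC, hten⟩ := hRB Q (a * ε) (by positivity)
  have i₀ : Fin n := ⟨0, by omega⟩
  refine ⟨C + 1, by linarith, fun B hB => ?_⟩
  have hB0 : (0 : ℝ) ≤ B := by linarith
  obtain ⟨Z, hZ⟩ : ∃ Z : ℝ, Z = (C + 1) * B ^ (1 / (a : ℝ) + ε) := ⟨_, rfl⟩
  rw [← hZ]
  have hex : ∀ q : (Quot fun L L' : {L : IntermediateField K QBar //
      Spec.IsSmall K QBar G L ∧ ∃ _ : NumberField L, (Spec.relDisc K L : ℝ) ≤ B} =>
      Nonempty (L.1 ≃ₐ[K] L'.1)), ∃ ρ : Gal(QBar/K) →* G,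
      Function.Surjective ρ ∧ FT ρ ∧ (Quot.out q).1 = fieldOf i₀ ρ :=
    fun q => H38.BG.dsm_rho hn G hG K i₀ _ (Quot.out q).2.1
  choose r hr1 hr2 hr3 using hex
  have hinj : Function.Injective r := by
    intro q q' h
    have h1 : (Quot.out q) = (Quot.out q') := Subtype.ext (by rw [hr3, hr3, h])
    rw [← Quot.out_eq q, ← Quot.out_eq q', h1]
  -- the discriminant
  have hcn : ∀ q, Cn Q (B ^ (1 / (a : ℝ))) (r q) := by
    intro q
    refine ⟨hr1 q, hr2 q, fun S hS => ?_⟩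
    obtain ⟨hfd, hdeg, -, hemb⟩ := small_field G hG K i₀ (r q) (hr1 q) (hr2 q)
    have hnf : NumberField (fieldOf i₀ (r q)) :=
      NumberField.of_module_finite K (fieldOf i₀ (r q))
    have h1 := H38.BG.dlow (fieldOf i₀ (r q)) S P (fun v _ => ⟨hPp v, hPu v⟩)
    have h2 : (∏ v ∈ S, nm v) ^ a ≤
        Ideal.absNorm (differentIdeal (𝓞 K) (𝓞 (fieldOf i₀ (r q)))) := by
      refine le_trans ?_ h1
      rw [← Finset.prod_pow]
      refine Finset.prod_le_prod' fun v hv => ?_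
      apply Nat.pow_le_pow_right (one_lt_nm v).le
      rw [hdeg, hemb]
      apply ind_le G
      · intro x hx
        obtain ⟨y, -, rfl⟩ := Subgroup.mem_map.1 hx
        exact y.2
      · intro hbot
        obtain ⟨τ, hτ, hne⟩ := hS v hv
        apply hne
        have h4 : ((r q τ : G) : Equiv.Perm (Fin n)) ∈
            (((P v).inertia Gal(QBar/K)).map (r q)).map G.subtype :=
          Subgroup.mem_map.2 ⟨r q τ, Subgroup.mem_map.2 ⟨τ, hτ, rfl⟩, rfl⟩
        rw [hbot, Subgroup.mem_bot] at h4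
        exact Subtype.ext h4
    have h5 : ((Ideal.absNorm (differentIdeal (𝓞 K) (𝓞 (fieldOf i₀ (r q)))) : ℕ) : ℝ) ≤ B := by
      have h6 : (H38.ML.relDisc K (fieldOf i₀ (r q)) : ℝ) ≤ B := by
        rw [← hr3 q]
        obtain ⟨hnf', hle⟩ := (Quot.out q).2.2
        rw [nk_disc K _ hnf']
        exact hle
      have h8 : H38.ML.relDisc K (fieldOf i₀ (r q)) =
          Ideal.absNorm (differentIdeal (𝓞 K) (𝓞 (fieldOf i₀ (r q)))) := by
        unfold H38.ML.relDisc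
        rw [dif_pos hnf]
      rw [← h8]
      exact h6
    have h9 : (∏ v ∈ S, (nm v : ℝ)) ^ a ≤ B := by
      refine le_trans ?_ h5
      exact_mod_cast h2
    have h10 : (0 : ℝ) ≤ ∏ v ∈ S, (nm v : ℝ) := Finset.prod_nonneg fun v _ => Nat.cast_nonneg _
    have h11 := Real.rpow_le_rpow (pow_nonneg h10 a) h9 (by positivity : (0 : ℝ) ≤ (a : ℝ)⁻¹)
    rw [Real.pow_rpow_inv_natCast h10 ha0.ne'] at h11
    rw [one_div]
    exact h11
  have hB1 : (1 : ℝ) ≤ B ^ (1 / (a : ℝ)) := Real.one_le_rpow hB (by positivity)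
  have hfin : ∀ F : Finset (Quot fun L L' : {L : IntermediateField K QBar //
      Spec.IsSmall K QBar G L ∧ ∃ _ : NumberField L, (Spec.relDisc K L : ℝ) ≤ B} =>
      Nonempty (L.1 ≃ₐ[K] L'.1)), (F.card : ℝ) ≤ Z := by
    intro F
    have h1 := hten (B ^ (1 / (a : ℝ))) hB1 (F.map ⟨r, hinj⟩) (by
      intro φ hφ
      obtain ⟨q, -, rfl⟩ := Finset.mem_map.1 hφ
      exact hcn q)
    rw [Finset.card_map, ← Real.rpow_mul hB0] at h1
    have h2 : (1 / (a : ℝ)) * (1 + a * ε) = 1 / (a : ℝ) + ε := by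
      field_simp
    rw [h2] at h1
    rw [hZ]
    have h3 : (0 : ℝ) ≤ B ^ (1 / (a : ℝ) + ε) := Real.rpow_nonneg hB0 _
    nlinarith
  have hfinQ : Finite (Quot fun L L' : {L : IntermediateField K QBar //
      Spec.IsSmall K QBar G L ∧ ∃ _ : NumberField L, (Spec.relDisc K L : ℝ) ≤ B} =>
      Nonempty (L.1 ≃ₐ[K] L'.1)) := by
    by_contra hinf
    rw [not_finite_iff_infinite] at hinf
    obtain ⟨F, hF⟩ := Infinite.exists_subset_card_eq (Quot fun L L' : {L : IntermediateField K QBar //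
      Spec.IsSmall K QBar G L ∧ ∃ _ : NumberField L, (Spec.relDisc K L : ℝ) ≤ B} =>
      Nonempty (L.1 ≃ₐ[K] L'.1)) (⌊Z⌋₊ + 1)
    have h5 := hfin F
    rw [hF] at h5
    push_cast at h5
    have h6 := Nat.lt_floor_add_one Z
    linarith
  have hft := Fintype.ofFinite (Quot fun L L' : {L : IntermediateField K QBar //
      Spec.IsSmall K QBar G L ∧ ∃ _ : NumberField L, (Spec.relDisc K L : ℝ) ≤ B} =>
      Nonempty (L.1 ≃ₐ[K] L'.1))
  have h6 := hfin Finset.univ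
  rw [Finset.card_univ, ← Nat.card_eq_fintype_card] at h6
  unfold Spec.nK
  rw [ENat.card_eq_coe_natCard]
  exact_mod_cast Nat.le_floor h6

end H86.WP
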