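import Pool.Agent.H86.WP.Sub
import Pool.Agent.H86.WP.AltN
import Pool.Agent.H86.WP.Nk
import Pool.Agent.H38.WM.Ten
import Pool.Agent.H38.WM.A4

/-!
# WP-FIN: the groups which are `A_4` modulo the hypercentre (complete)

* `rba_a4`: all homomorphisms to `A_4`, from the surjective ones.
* `rba_all`: all homomorphisms to `G`, `G / Z_k(G) ≅ A_4`.
* `fin`: `n_K(G, B)` for `K` any number field, from the count of the surjective homomorphisms to `A_4`.
* `fin_core`: the same from `CoreBound K`, `K` with a primitive cube root of unity.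
-/

set_option autoImplicit false

open scoped NumberField
open IsDedekindDomain NumberField H38.ML H63.MA H38.WM

noncomputable section

namespace H86.WP

variable {K : IntermediateField ℚ QBar} [NumberField K]

theorem rba_a4 (Q : DP K QBar) (h : RB Q (alternatingGroup (Fin 4))) :
    RBA Q (alternatingGroup (Fin 4)) := by
  refine rba_sub Q _ fun U => ?_
  by_cases hU : U = ⊤
  · rw [hU]
    exact rb_equiv Q Subgroup.topEquiv.symm h
  · exact rb_of_rba Q (rba_nil Q U (altn U hU))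

theorem rba_all (Q : DP K QBar) (h : RB Q (alternatingGroup (Fin 4))) (G : Type) [Group G]
    [Finite G] (k : ℕ)
    (hA : Nonempty (G ⧸ Subgroup.upperCentralSeries G k ≃* alternatingGroup (Fin 4))) :
    RBA Q G := by
  obtain ⟨e⟩ := hA
  refine rba_hyp Q (e.toMonoidHom.comp (QuotientGroup.mk' (Subgroup.upperCentralSeries G k))) k ?_
    (rba_a4 Q h)
  intro x hx
  have h1 : e (QuotientGroup.mk' (Subgroup.upperCentralSeries G k) x) = 1 := hx
  rw [MulEquiv.map_eq_one_iff] at h1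
  exact (QuotientGroup.eq_one_iff x).1 h1

theorem fin {n : ℕ} (hn : 2 ≤ n) (G : Subgroup (Equiv.Perm (Fin n)))
    (hG : MulAction.IsPretransitive G (Fin n)) (k : ℕ)
    (hA : Nonempty (G ⧸ Subgroup.upperCentralSeries G k ≃* alternatingGroup (Fin 4)))
    (K : IntermediateField ℚ QBar) [NumberField K]
    (h4 : ∀ Q : DP K QBar, RB Q (alternatingGroup (Fin 4))) (ε : ℝ) (hε : 0 < ε) :
    ∃ C : ℝ, 0 < C ∧ ∀ B : ℝ, 1 ≤ B → Spec.nK K QBar G B ≤
      ((⌊C * B ^ (1 / (Spec.indG G : ℝ) + ε)⌋₊ : ℕ) : ℕ∞) :=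
  nkg hn G hG K (fun Q => rb_of_rba Q (rba_all Q (h4 Q) G k hA)) ε hε

theorem rb_core (ω : K) (hω : IsPrimitiveRoot ω 3) (core : CoreBound K) (Q : DP K QBar) :
    RB Q (alternatingGroup (Fin 4)) := by
  obtain ⟨D⟩ := a4_td
  exact fun ε hε => ten ω hω D Q core ε hε

theorem fin_core {n : ℕ} (hn : 2 ≤ n) (G : Subgroup (Equiv.Perm (Fin n)))
    (hG : MulAction.IsPretransitive G (Fin n)) (k : ℕ)
    (hA : Nonempty (G ⧸ Subgroup.upperCentralSeries G k ≃* alternatingGroup (Fin 4)))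
    (K : IntermediateField ℚ QBar) [NumberField K] (ω : K) (hω : IsPrimitiveRoot ω 3)
    (core : CoreBound K) (ε : ℝ) (hε : 0 < ε) :
    ∃ C : ℝ, 0 < C ∧ ∀ B : ℝ, 1 ≤ B → Spec.nK K QBar G B ≤
      ((⌊C * B ^ (1 / (Spec.indG G : ℝ) + ε)⌋₊ : ℕ) : ℕ∞) :=
  fin hn G hG k hA K (fun Q => rb_core ω hω core Q) ε hε

end H86.WP
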