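import Pool.Agent.H86.WP.Cen

/-!
# WP-HYP: kernels in the hypercentre (complete)

`hyp`: `G` finite, `ker f` contained in a term of the upper central series: `FB Q f`.

Proof. Induction on the order of `ker f`. If `ker f ≠ 1`, then `ker f` contains a central element of prime order (take `i` minimal with
`ker f ∩ Z_i ≠ 1`); `f` is the composition of `G → G ⧸ Z` and `G ⧸ Z → H`, `Z` the group generated by it. `cen`, `fb_comp`.
-/

set_option autoImplicit false

open scoped NumberField
open IsDedekindDomain NumberField H38.ML H63.MA H38.WM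
open scoped commutatorElement

noncomputable section

namespace H86.WP

variable {K : IntermediateField ℚ QBar} [NumberField K]

private theorem hyp_center {G : Type} [Group G] (N : Subgroup G) [N.Normal] (hN : N ≠ ⊥) (k : ℕ)
    (h : N ≤ Subgroup.upperCentralSeries G k) : N ⊓ Subgroup.center G ≠ ⊥ := by
  classical
  have hex : ∃ i, N ⊓ Subgroup.upperCentralSeries G i ≠ ⊥ := ⟨k, by rwa [inf_eq_left.2 h]⟩
  obtain ⟨i, hi, hmin⟩ : ∃ i, N ⊓ Subgroup.upperCentralSeries G i ≠ ⊥ ∧
      ∀ j < i, N ⊓ Subgroup.upperCentralSeries G j = ⊥ :=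
    ⟨Nat.find hex, Nat.find_spec hex, fun j hj => not_not.1 (Nat.find_min hex hj)⟩
  rcases Nat.eq_zero_or_pos i with h0 | h0
  · exfalso
    apply hi
    rw [h0, Subgroup.upperCentralSeries_zero, inf_bot_eq]
  obtain ⟨j, rfl⟩ : ∃ j, i = j + 1 := ⟨i - 1, by omega⟩
  have hj := hmin j (Nat.lt_succ_self j)
  intro hc
  apply hi
  rw [eq_bot_iff]
  rintro x ⟨hx1, hx2⟩
  rw [← hc]
  refine ⟨hx1, ?_⟩
  refine Subgroup.mem_center_iff.2 ?_
  intro g
  have h1 : ⁅x, g⁆ ∈ N ⊓ Subgroup.upperCentralSeries G j := by
    refine ⟨?_, (Subgroup.mem_upperCentralSeries_succ_iff.1 hx2) g⟩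
    have h2 : g * x⁻¹ * g⁻¹ ∈ N := Subgroup.Normal.conj_mem ‹_› _ (N.inv_mem hx1) g
    have h3 : ⁅x, g⁆ = x * (g * x⁻¹ * g⁻¹) := by
      rw [commutatorElement_def]
      group
    rw [h3]
    exact N.mul_mem hx1 h2
  rw [hj, Subgroup.mem_bot, commutatorElement_eq_one_iff_mul_comm] at h1
  exact h1.symm

theorem hyp (Q : DP K QBar) (k : ℕ) : ∀ (m : ℕ) (G H : Type) [Group G] [Group H] [Finite G]
    (f : G →* H), Nat.card f.ker ≤ m → f.ker ≤ Subgroup.upperCentralSeries G k → FB Q f := by
  intro m
  induction m with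
  | zero =>
    intro G H _ _ _ f hm _
    exact absurd (Nat.card_pos (α := f.ker)) (by omega)
  | succ m ih =>
    intro G H _ _ _ f hm hk
    by_cases hb : f.ker = ⊥
    · exact fb_inj Q f ((MonoidHom.ker_eq_bot_iff f).1 hb)
    have hc := hyp_center f.ker hb k hk
    have hcard : Nat.card ↥(f.ker ⊓ Subgroup.center G) ≠ 1 := by
      intro h1
      exact hc (Subgroup.card_eq_one.1 h1)
    obtain ⟨p, hp, hpd⟩ := Nat.exists_prime_and_dvd hcard
    have hpf : Fact p.Prime := ⟨hp⟩
    obtain ⟨⟨z, hz1, hz2⟩, hz⟩ := exists_prime_orderOf_dvd_card' p hpd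
    have hz' : orderOf z = p := by
      rw [← hz, ← Subgroup.orderOf_coe]
    let Z : Subgroup G := Subgroup.zpowers z
    have hZc : Z ≤ Subgroup.center G := by
      rw [Subgroup.zpowers_le]
      exact hz2
    have hZk : Z ≤ f.ker := by
      rw [Subgroup.zpowers_le]
      exact hz1
    have hZn : Z.Normal := ⟨fun x hx g => by
      have h1 := (Subgroup.mem_center_iff.1 (hZc hx)) g
      rw [h1, mul_inv_cancel_right]
      exact hx⟩
    have hZcard : Nat.card Z = p := by
      rw [Nat.card_zpowers, hz']
    have h1 : FB Q (QuotientGroup.mk' Z) := by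
      refine cen Q (QuotientGroup.mk' Z) hp ?_ ?_
      · rw [QuotientGroup.ker_mk', hZcard]
      · rw [QuotientGroup.ker_mk']
        exact hZc
    let f' : G ⧸ Z →* H := QuotientGroup.lift Z f fun x hx => MonoidHom.mem_ker.1 (hZk hx)
    have hf' : f'.comp (QuotientGroup.mk' Z) = f := by
      apply MonoidHom.ext
      intro x
      rfl
    have hker : f'.ker = f.ker.map (QuotientGroup.mk' Z) := by
      ext x
      constructor
      · intro hx
        obtain ⟨y, rfl⟩ := QuotientGroup.mk_surjective x
        exact ⟨y, hx, rfl⟩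
      · rintro ⟨y, hy, rfl⟩
        exact hy
    have h2 : FB Q f' := by
      refine ih (G ⧸ Z) H f' ?_ ?_
      · let q : f.ker → f'.ker := fun x => ⟨QuotientGroup.mk' Z x, x.2⟩
        have hq1 : Function.Surjective q := by
          rintro ⟨x, hx⟩
          obtain ⟨y, rfl⟩ := QuotientGroup.mk_surjective x
          exact ⟨⟨y, hx⟩, rfl⟩
        have hq2 : ¬ Function.Injective q := by
          intro hinj
          have h3 : q ⟨z, hz1⟩ = q 1 := by
            apply Subtype.ext
            change (QuotientGroup.mk' Z) z = (QuotientGroup.mk' Z) 1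
            rw [map_one]
            exact (QuotientGroup.eq_one_iff z).2 (Subgroup.mem_zpowers z)
          have h4 := congrArg Subtype.val (hinj h3)
          have h5 : z = 1 := h4
          rw [h5, orderOf_one] at hz'
          exact hp.one_lt.ne hz'
        let _ : Fintype f.ker := Fintype.ofFinite _
        have hfin' : Finite f'.ker := Finite.of_surjective q hq1
        let _ : Fintype f'.ker := Fintype.ofFinite _
        have h3 := Fintype.card_lt_of_surjective_not_injective q hq1 hq2
        rw [Nat.card_eq_fintype_card] at hm ⊢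
        omega
      · rw [hker]
        exact (Subgroup.map_mono hk).trans (Subgroup.upperCentralSeries.map (QuotientGroup.mk'_surjective Z) k)
    rw [← hf']
    exact fb_comp Q _ _ h1 h2

end H86.WP
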