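import Pool.Agent.H86.WP.Rad
import Pool.Agent.H86.WP.Hyp

/-!
# WP-SUB: all homomorphisms from the surjective ones onto subgroups; nilpotent groups (complete)
-/

set_option autoImplicit false

open scoped NumberField
open IsDedekindDomain NumberField H38.ML H63.MA H38.WM

noncomputable section

namespace H86.WP

variable {K : IntermediateField ℚ QBar} [NumberField K]

theorem rba_triv (Q : DP K QBar) (G : Type) [Group G] [Subsingleton G] : RBA Q G := by
  intro ε hε
  refine ⟨1, zero_le_one, fun Z hZ Rs _ => ?_⟩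
  have h1 : Rs.card ≤ 1 := by
    rw [Finset.card_le_one]
    intro ρ _ ρ' _
    apply MonoidHom.ext
    intro σ
    exact Subsingleton.elim _ _
  have h2 : (1 : ℝ) ≤ Z ^ (1 + ε) := Real.one_le_rpow hZ (by positivity)
  have h3 : (Rs.card : ℝ) ≤ 1 := by exact_mod_cast h1
  linarith

/-- if the kernel is in the hypercentre -/
theorem rba_hyp (Q : DP K QBar) {G H : Type} [Group G] [Group H] [Finite G] (f : G →* H) (k : ℕ)
    (hk : f.ker ≤ Subgroup.upperCentralSeries G k) (hH : RBA Q H) : RBA Q G :=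
  rad Q f hH (hyp Q k _ G H f le_rfl hk)

/-- nilpotent groups -/
theorem rba_nil (Q : DP K QBar) (G : Type) [Group G] [Finite G] (h : Group.IsNilpotent G) :
    RBA Q G := by
  obtain ⟨k, hk⟩ := h.nilpotent'
  refine rba_hyp Q (1 : G →* Unit) k ?_ (rba_triv Q Unit)
  rw [hk]
  exact le_top

theorem rb_equiv (Q : DP K QBar) {G H : Type} [Group G] [Group H] (e : G ≃* H) (h : RB Q G) :
    RB Q H := by
  classical
  intro ε hε
  obtain ⟨C, hC0, hC⟩ := h ε hε
  refine ⟨C, hC0, fun Z hZ Rs hRs => ?_⟩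
  let F : (Gal(QBar/K) →* H) → (Gal(QBar/K) →* G) := fun ρ => e.symm.toMonoidHom.comp ρ
  have hF : Function.Injective F := by
    intro ρ ρ' h
    apply MonoidHom.ext
    intro σ
    exact e.symm.injective (DFunLike.congr_fun h σ)
  have h1 := hC Z hZ (Rs.image F) (by
    intro ρ hρ
    obtain ⟨φ, hφ, rfl⟩ := Finset.mem_image.1 hρ
    obtain ⟨h2, h3, h4⟩ := hRs φ hφ
    refine ⟨e.symm.surjective.comp h2, ft_comp _ h3, fun S hS => h4 S fun l hl => ?_⟩
    exact rm_comp Q e.symm.toMonoidHom (hS l hl))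
  rwa [Finset.card_image_of_injective _ hF] at h1

/-- all homomorphisms from the surjective homomorphisms onto the subgroups -/
theorem rba_sub (Q : DP K QBar) (G : Type) [Group G] [Finite G] (h : ∀ U : Subgroup G, RB Q U) :
    RBA Q G := by
  classical
  intro ε hε
  choose C hC0 hC using fun U : Subgroup G => h U ε hε
  let _ : Fintype (Subgroup G) := Fintype.ofFinite _
  refine ⟨∑ U, C U, Finset.sum_nonneg fun U _ => hC0 U, fun Z hZ Rs hRs => ?_⟩
  have h1 : ∀ U : Subgroup G, (((Rs.filter fun ρ => ρ.range = U).card : ℕ) : ℝ) ≤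
      C U * Z ^ (1 + ε) := by
    intro U
    let F : (Gal(QBar/K) →* G) → (Gal(QBar/K) →* U) := fun ρ =>
      if h : ∀ σ, ρ σ ∈ U then ρ.codRestrict U h else 1
    have hF : ∀ ρ ∈ Rs.filter (fun ρ => ρ.range = U), ∀ σ, ((F ρ σ : U) : G) = ρ σ := by
      intro ρ hρ σ
      have h2 := (Finset.mem_filter.1 hρ).2
      have h3 : ∀ σ, ρ σ ∈ U := fun σ => h2 ▸ ⟨σ, rfl⟩
      simp only [F, dif_pos h3]
      rfl
    have hinj : Set.InjOn F (Rs.filter fun ρ => ρ.range = U) := by
      intro ρ hρ ρ' hρ' h4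
      apply MonoidHom.ext
      intro σ
      rw [← hF ρ hρ, ← hF ρ' hρ', h4]
    have h5 := hC U Z hZ ((Rs.filter fun ρ => ρ.range = U).image F) (by
      intro φ hφ
      obtain ⟨ρ, hρ, rfl⟩ := Finset.mem_image.1 hφ
      obtain ⟨h6, h7⟩ := Finset.mem_filter.1 hρ
      obtain ⟨⟨E, hE, hle⟩, h8⟩ := hRs ρ h6
      have h9 : ∀ σ, ρ σ = 1 → F ρ σ = 1 := by
        intro σ hσ
        apply Subtype.ext
        rw [hF ρ hρ, hσ]
        rfl
      refine ⟨?_, ⟨E, hE, fun σ hσ => h9 σ (hle hσ)⟩, fun S hS => h8 S fun l hl => ?_⟩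
      · rintro ⟨u, hu⟩
        rw [← h7] at hu
        obtain ⟨σ, hσ⟩ := hu
        exact ⟨σ, Subtype.ext (by rw [hF ρ hρ, hσ])⟩
      · obtain ⟨τ, hτ, hne⟩ := hS l hl
        exact ⟨τ, hτ, fun h0 => hne (h9 τ h0)⟩)
    rwa [Finset.card_image_of_injOn hinj] at h5
  calc (Rs.card : ℝ) = ∑ U : Subgroup G, (((Rs.filter fun ρ => ρ.range = U).card : ℕ) : ℝ) := by
        have h2 := Finset.card_eq_sum_card_fiberwise
          (f := fun ρ : Gal(QBar/K) →* G => ρ.range) (s := Rs) (t := Finset.univ)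
          (fun ρ _ => Finset.mem_coe.2 (Finset.mem_univ _))
        exact_mod_cast h2
    _ ≤ ∑ U : Subgroup G, C U * Z ^ (1 + ε) := Finset.sum_le_sum fun U _ => h1 U
    _ = (∑ U, C U) * Z ^ (1 + ε) := by rw [Finset.sum_mul]

end H86.WP
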