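import Pool.Agent.H86.WP.Def
import Pool.Agent.H38.WM.RmF
import Pool.Agent.H38.WM.SumT

/-!
# WP-ALL: all homomorphisms (not only surjective ones): definitions (complete)

* `Cf Q Z ρ`: `ρ` is of finite type and the product of the norms of its ramified primes is at most `Z`.
* `RBA Q G`: the `ρ : Gal(QBar/K) →* G` with `Cf Q Z ρ` are at most `C Z^(1+ε)` in number.
* `tt Q ρ`: the finite set of ramified primes, `rr Q ρ` the product of their norms.
-/

set_option autoImplicit false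

open scoped NumberField
open IsDedekindDomain NumberField H38.ML H63.MA H38.WM

noncomputable section

namespace H86.WP

variable {K : IntermediateField ℚ QBar} [NumberField K]

/-- `ρ` is of finite type and the product of the norms of its ramified primes is at most `Z` -/
def Cf {G : Type} [Group G] (Q : DP K QBar) (Z : ℝ) (ρ : Gal(QBar/K) →* G) : Prop :=
  FT ρ ∧ ∀ S : Finset (Pl K), (∀ l ∈ S, l ∈ Rm Q ρ) → ∏ l ∈ S, (nm l : ℝ) ≤ Z

/-- the number of all homomorphisms to `G` in terms of the product of the ramified primes -/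
def RBA (Q : DP K QBar) (G : Type) [Group G] : Prop :=
  ∀ ε : ℝ, 0 < ε → ∃ C : ℝ, 0 ≤ C ∧ ∀ Z : ℝ, 1 ≤ Z → ∀ Rs : Finset (Gal(QBar/K) →* G),
    (∀ ρ ∈ Rs, Cf Q Z ρ) → (Rs.card : ℝ) ≤ C * Z ^ (1 + ε)

open Classical in
/-- the finite set of ramified primes -/
def tt {G : Type} [Group G] (Q : DP K QBar) (ρ : Gal(QBar/K) →* G) : Finset (Pl K) :=
  if h : FT ρ then (H38.WM.rmF Q ρ h).toFinset else ∅

/-- the product of the norms of the ramified primes -/
def rr {G : Type} [Group G] (Q : DP K QBar) (ρ : Gal(QBar/K) →* G) : ℝ :=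
  ∏ l ∈ tt Q ρ, (nm l : ℝ)

theorem mem_tt {G : Type} [Group G] (Q : DP K QBar) {ρ : Gal(QBar/K) →* G} (h : FT ρ) (l : Pl K) :
    l ∈ tt Q ρ ↔ l ∈ Rm Q ρ := by
  unfold tt
  rw [dif_pos h, Set.Finite.mem_toFinset]

theorem nm_one (l : Pl K) : (1 : ℝ) ≤ (nm l : ℝ) := by
  exact_mod_cast (one_lt_nm l).le

theorem prod_one (T : Finset (Pl K)) : (1 : ℝ) ≤ ∏ l ∈ T, (nm l : ℝ) :=
  Finset.one_le_prod fun l _ => nm_one l

theorem rr_one {G : Type} [Group G] (Q : DP K QBar) (ρ : Gal(QBar/K) →* G) : 1 ≤ rr Q ρ :=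
  prod_one _

theorem cf_iff {G : Type} [Group G] (Q : DP K QBar) (Z : ℝ) {ρ : Gal(QBar/K) →* G} (h : FT ρ) :
    Cf Q Z ρ ↔ rr Q ρ ≤ Z := by
  constructor
  · intro h1
    exact h1.2 _ fun l hl => (mem_tt Q h l).1 hl
  · intro h1
    refine ⟨h, fun S hS => le_trans ?_ h1⟩
    refine Finset.prod_le_prod_of_subset_of_one_le (fun l hl => (mem_tt Q h l).2 (hS l hl)) ?_ ?_
    · intro l _
      exact zero_le_one.trans (nm_one l)
    · intro l _ _
      exact nm_one l

theorem rb_of_rba (Q : DP K QBar) {G : Type} [Group G] (h : RBA Q G) : RB Q G := by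
  intro ε hε
  obtain ⟨C, hC0, hC⟩ := h ε hε
  exact ⟨C, hC0, fun Z hZ Rs hRs => hC Z hZ Rs fun ρ hρ => (hRs ρ hρ).2⟩

end H86.WP
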