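import Pool.Agent.H86.WP.Def

/-!
# WP-FBC: fibre bounds: injective maps and compositions

* `fb_inj`: `f` injective: at most one homomorphism.
* `fb_comp`: `FB f → FB g → FB (g ∘ f)`: the images `f ∘ ρ` are of finite type and unramified outside `T`.
-/

set_option autoImplicit false

open scoped NumberField
open IsDedekindDomain NumberField H38.ML H63.MA H38.WM

noncomputable section

namespace H86.WP

variable {K : IntermediateField ℚ QBar} [NumberField K]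

theorem ft_comp {G H : Type} [Group G] [Group H] (f : G →* H) {ρ : Gal(QBar/K) →* G} (h : FT ρ) :
    FT (f.comp ρ) := by
  obtain ⟨E, hE, hle⟩ := h
  refine ⟨E, hE, fun σ hσ => ?_⟩
  rw [MonoidHom.mem_ker, MonoidHom.comp_apply, MonoidHom.mem_ker.1 (hle hσ), map_one]

theorem rm_comp (Q : DP K QBar) {G H : Type} [Group G] [Group H] (f : G →* H)
    {ρ : Gal(QBar/K) →* G} : Rm Q (f.comp ρ) ⊆ Rm Q ρ := by
  rintro l ⟨τ, hτ, h⟩
  refine ⟨τ, hτ, fun h0 => h ?_⟩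
  rw [MonoidHom.comp_apply, h0, map_one]

theorem fb_inj (Q : DP K QBar) {G H : Type} [Group G] [Group H] (f : G →* H)
    (hf : Function.Injective f) : FB Q f := by
  refine ⟨1, 1, fun T ρ₀ Rs hRs => ?_⟩
  rw [one_pow, mul_one, Finset.card_le_one]
  intro ρ hρ ρ' hρ'
  apply MonoidHom.ext
  intro σ
  apply hf
  have h1 := DFunLike.congr_fun ((hRs ρ hρ).1.trans (hRs ρ' hρ').1.symm) σ
  exact h1

theorem fb_comp (Q : DP K QBar) {G H J : Type} [Group G] [Group H] [Group J] (f : G →* H)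
    (g : H →* J) (hf : FB Q f) (hg : FB Q g) : FB Q (g.comp f) := by
  classical
  obtain ⟨C₁, A₁, h₁⟩ := hf
  obtain ⟨C₂, A₂, h₂⟩ := hg
  refine ⟨C₁ * C₂, A₁ * A₂, fun T ρ₀ Rs hRs => ?_⟩
  have h3 : (Rs.image fun ρ => f.comp ρ).card ≤ C₂ * A₂ ^ T.card := by
    refine h₂ T ρ₀ _ fun φ hφ => ?_
    obtain ⟨ρ, hρ, rfl⟩ := Finset.mem_image.1 hφ
    obtain ⟨h4, h5, h6⟩ := hRs ρ hρ
    exact ⟨h4, ft_comp f h5, fun l hl => h6 l (rm_comp Q f hl)⟩
  have h4 : Rs.card ≤ (C₁ * A₁ ^ T.card) * (Rs.image fun ρ => f.comp ρ).card := by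
    refine Finset.card_le_mul_card_image _ _ fun φ _ => ?_
    refine h₁ T φ _ fun ρ hρ => ?_
    obtain ⟨h5, h6⟩ := Finset.mem_filter.1 hρ
    exact ⟨h6, (hRs ρ h5).2⟩
  calc Rs.card ≤ (C₁ * A₁ ^ T.card) * (Rs.image fun ρ => f.comp ρ).card := h4
    _ ≤ (C₁ * A₁ ^ T.card) * (C₂ * A₂ ^ T.card) := Nat.mul_le_mul_left _ h3
    _ = C₁ * C₂ * (A₁ * A₂) ^ T.card := by rw [mul_pow]; ring

end H86.WP
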