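import Pool.Agent.H86.WP.Chr
import Pool.Agent.H86.WP.Fbc

/-!
# WP-CEN: central kernels of prime order

Proof. If `f ∘ φ = f ∘ φ₀` and `ker f` is central of prime order `p`, then `σ ↦ φ σ (φ₀ σ)⁻¹` is a homomorphism to `ker f ≅ Z/p`, of
finite type, unramified outside `T`; it determines `φ`. `chr`.
-/

set_option autoImplicit false

open scoped NumberField
open IsDedekindDomain NumberField H38.ML H63.MA H38.WM

noncomputable section

namespace H86.WP

variable {K : IntermediateField ℚ QBar} [NumberField K]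

/-- the quotient of two homomorphisms with the same image in `H` -/
def cenq {G H : Type} [Group G] [Group H] (f : G →* H) (hc : f.ker ≤ Subgroup.center G)
    (φ φ₀ : Gal(QBar/K) →* G) (h : f.comp φ = f.comp φ₀) : Gal(QBar/K) →* f.ker :=
  MonoidHom.mk' (fun σ => ⟨φ σ * (φ₀ σ)⁻¹, by
    rw [MonoidHom.mem_ker, map_mul, map_inv]
    have h1 : f (φ σ) = f (φ₀ σ) := DFunLike.congr_fun h σ
    rw [h1, mul_inv_cancel]⟩) (by
    intro σ τ
    apply Subtype.ext
    have h1 : φ τ * (φ₀ τ)⁻¹ ∈ Subgroup.center G := by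
      apply hc
      rw [MonoidHom.mem_ker, map_mul, map_inv]
      have h2 : f (φ τ) = f (φ₀ τ) := DFunLike.congr_fun h τ
      rw [h2, mul_inv_cancel]
    have h3 := (Subgroup.mem_center_iff.1 h1) ((φ₀ σ)⁻¹)
    change φ (σ * τ) * (φ₀ (σ * τ))⁻¹ = (φ σ * (φ₀ σ)⁻¹) * (φ τ * (φ₀ τ)⁻¹)
    rw [map_mul, map_mul, mul_inv_rev, mul_assoc (φ σ) (φ₀ σ)⁻¹, h3]
    group)

omit [NumberField K] in
theorem cenq_val {G H : Type} [Group G] [Group H] (f : G →* H) (hc : f.ker ≤ Subgroup.center G)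
    (φ φ₀ : Gal(QBar/K) →* G) (h : f.comp φ = f.comp φ₀) (σ : Gal(QBar/K)) :
    ((cenq f hc φ φ₀ h σ : f.ker) : G) = φ σ * (φ₀ σ)⁻¹ := rfl

theorem cen (Q : DP K QBar) {G H : Type} [Group G] [Group H] (f : G →* H) {p : ℕ} (hp : p.Prime)
    (hk : Nat.card f.ker = p) (hc : f.ker ≤ Subgroup.center G) : FB Q f := by
  classical
  obtain ⟨C, A, hCA⟩ := chr Q hp
  have : Fact p.Prime := ⟨hp⟩
  let e : f.ker ≃* Multiplicative (ZMod p) :=
    mulEquivOfPrimeCardEq hk (by rw [Nat.card_congr Multiplicative.toAdd, Nat.card_zmod])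
  refine ⟨C, A, fun T ρ₀ Rs hRs => ?_⟩
  rcases Rs.eq_empty_or_nonempty with h0 | ⟨φ₀, hφ₀⟩
  · rw [h0, Finset.card_empty]
    exact Nat.zero_le _
  have hcomp : ∀ φ ∈ Rs, f.comp φ = f.comp φ₀ := fun φ hφ =>
    (hRs φ hφ).1.trans (hRs φ₀ hφ₀).1.symm
  let F : (Gal(QBar/K) →* G) → (Gal(QBar/K) →* Multiplicative (ZMod p)) := fun φ =>
    if h : f.comp φ = f.comp φ₀ then e.toMonoidHom.comp (cenq f hc φ φ₀ h) else 1
  have hF : ∀ (φ : Gal(QBar/K) →* G) (hφ : φ ∈ Rs) (σ : Gal(QBar/K)),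
      F φ σ = e (cenq f hc φ φ₀ (hcomp φ hφ) σ) := by
    intro φ hφ σ
    simp only [F, dif_pos (hcomp φ hφ)]
    rfl
  have hinj : Set.InjOn F Rs := by
    intro φ hφ φ' hφ' h
    apply MonoidHom.ext
    intro σ
    have h1 := DFunLike.congr_fun h σ
    rw [hF φ hφ, hF φ' hφ'] at h1
    have h2 := congrArg Subtype.val (e.injective h1)
    rw [cenq_val, cenq_val] at h2
    exact mul_right_cancel h2
  have h1 := hCA T (Rs.image F) (by
    intro χ hχ
    obtain ⟨φ, hφ, rfl⟩ := Finset.mem_image.1 hχ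
    obtain ⟨-, ⟨E, hE, hle⟩, hrm⟩ := hRs φ hφ
    obtain ⟨-, ⟨E', hE', hle'⟩, hrm'⟩ := hRs φ₀ hφ₀
    have h5 : ∀ σ, φ σ = 1 → φ₀ σ = 1 → F φ σ = 1 := by
      intro σ h6 h7
      rw [hF φ hφ]
      have h8 : cenq f hc φ φ₀ (hcomp φ hφ) σ = 1 := by
        apply Subtype.ext
        rw [cenq_val, h6, h7, inv_one, mul_one]
        rfl
      rw [h8, map_one]
    refine ⟨⟨E ⊔ E', inferInstance, fun σ hσ => ?_⟩, fun v hv τ hτ => ?_⟩
    · rw [MonoidHom.mem_ker]
      refine h5 σ ?_ ?_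
      · exact MonoidHom.mem_ker.1 (hle (IntermediateField.fixingSubgroup_antitone le_sup_left hσ))
      · exact MonoidHom.mem_ker.1 (hle' (IntermediateField.fixingSubgroup_antitone le_sup_right hσ))
    · refine h5 τ ?_ ?_
      · by_contra h
        exact hv (hrm v ⟨τ, hτ, h⟩)
      · by_contra h
        exact hv (hrm' v ⟨τ, hτ, h⟩))
  rw [Finset.card_image_of_injOn hinj] at h1
  exact h1

end H86.WP
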