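import Pool.Agent.H86.WP.Kt
import Pool.Agent.H38.WM.Def
import Pool.Agent.H63.MA.GFrob
import Pool.Agent.H63.MA.KumB

/-!
# WP-CHR: characters of prime order unramified outside `T`, every number field `K` (complete)

Proof. `K' = K(ζ)`, `ζ` a primitive `p`-th root of unity. `χ ↦ χ' = χ` restricted to `Gal(QBar/K')`: at most `p^[K':K]` characters have
the same restriction (values on representatives of the cosets of `K'.fixingSubgroup`), `χ'` is unramified outside the primes of `K'`
over `T` (a prime of `𝓞 QBar` over `w` is conjugate over `K` to the prime `Q.P v`, `v` below `w`, and `χ` does not change under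
conjugation), at most `[K':K] #T` in number (`Ideal.sum_ramification_inertia`). `kt`.
-/

set_option autoImplicit false

open scoped NumberField Pointwise
open IsDedekindDomain NumberField H38.ML H63.MA H38.WM

noncomputable section

namespace H86.WP

private theorem chr_conj {K : Type} [Field K] [NumberField K] {Ω : Type} [Field Ω] [Algebra K Ω]
    [IsAlgClosure K Ω] (P Q : Ideal (𝓞 Ω)) (hP : P.IsPrime) (hQ : Q.IsPrime)
    (h : P.under (𝓞 K) = Q.under (𝓞 K)) :
    ∃ g : Gal(Ω/K), ∀ τ ∈ Q.inertia Gal(Ω/K), g⁻¹ * τ * g ∈ P.inertia Gal(Ω/K) := by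
  have : IsGalois K Ω := IsAlgClosure.isGalois K Ω
  let _ : TopologicalSpace (𝓞 Ω) := ⊥
  have : DiscreteTopology (𝓞 Ω) := ⟨rfl⟩
  have : ContinuousSMul Gal(Ω/K) (𝓞 Ω) := by
    rw [continuousSMul_iff_stabilizer_isOpen]
    intro x
    have h1 := stabilizer_isOpen_of_isIntegral (K := K) (L := Ω) (x : Ω)
    have h2 : (MulAction.stabilizer Gal(Ω/K) x : Set Gal(Ω/K)) =
        (MulAction.stabilizer Gal(Ω/K) (x : Ω) : Set Gal(Ω/K)) := by
      ext g
      simp only [SetLike.mem_coe, MulAction.mem_stabilizer_iff]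
      constructor
      · intro hg
        exact congrArg (fun z : 𝓞 Ω => (z : Ω)) hg
      · intro hg
        exact NumberField.RingOfIntegers.ext hg
    rw [h2]
    exact h1
  have : Algebra.IsInvariant (𝓞 K) (𝓞 Ω) Gal(Ω/K) := ⟨fun b hb => by
    have h1 : (b : Ω) ∈ (⊥ : IntermediateField K Ω) := by
      rw [← InfiniteGalois.fixedField_bot (k := K) (K := Ω), IntermediateField.mem_fixedField_iff]
      intro g _
      exact congrArg (fun z : 𝓞 Ω => (z : Ω)) (hb g)
    obtain ⟨a, ha⟩ := IntermediateField.mem_bot.1 h1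
    have h2 : IsIntegral ℤ a := by
      have h3 : IsIntegral ℤ (algebraMap K Ω a) := by
        rw [ha]
        exact b.2
      exact (isIntegral_algebraMap_iff (algebraMap K Ω).injective).1 h3
    refine ⟨⟨a, h2⟩, NumberField.RingOfIntegers.ext ?_⟩
    exact ha⟩
  obtain ⟨g, hg⟩ := Algebra.IsInvariant.exists_smul_of_under_eq_of_profinite (A := 𝓞 K)
    (G := Gal(Ω/K)) P Q h
  refine ⟨g, fun τ hτ => ?_⟩
  intro x
  have h1 : τ • (g • x) - g • x ∈ Q := hτ (g • x)
  rw [hg, Ideal.mem_pointwise_smul_iff_inv_smul_mem, smul_sub] at h1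
  rw [mul_smul, mul_smul]
  rwa [inv_smul_smul] at h1

private theorem chr_card {K : Type} [Field K] [NumberField K] {L : Type} [Field L] [NumberField L]
    [Algebra K L] (v : Pl K) :
    (over_finite (L := L) v).toFinset.card ≤ Module.finrank K L := by
  classical
  have hvm : v.asIdeal.IsMaximal := v.isMaximal
  have hfin : (v.asIdeal.primesOver (𝓞 L)).Finite :=
    IsDedekindDomain.primesOver_finite v.asIdeal (𝓞 L)
  have hft : Fintype (v.asIdeal.primesOver (𝓞 L)) := hfin.fintype
  have h2 : Module.finrank (𝓞 K) (𝓞 L) = Module.finrank K L :=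
    (IsFractionRing.finrank_eq (𝓞 K) K (𝓞 L) L).symm
  rw [← h2, ← Ideal.sum_ramification_inertia_eq_finrank v.asIdeal,
    Finset.sum_set_coe (v.asIdeal.primesOver (𝓞 L))
      (f := fun Q => Q.ramificationIdx (𝓞 K) * Q.inertiaDeg (𝓞 K))]
  have h3 : (over_finite (L := L) v).toFinset.card =
      ((over_finite (L := L) v).toFinset.image fun w : Pl L => w.asIdeal).card := by
    rw [Finset.card_image_of_injective]
    exact fun _ _ h => HeightOneSpectrum.ext h
  rw [h3, Finset.card_eq_sum_ones]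
  have h4 : ((over_finite (L := L) v).toFinset.image fun w : Pl L => w.asIdeal) ⊆
      (v.asIdeal.primesOver (𝓞 L)).toFinset := by
    intro P hP
    obtain ⟨w, hw, rfl⟩ := Finset.mem_image.1 hP
    rw [Set.Finite.mem_toFinset] at hw
    rw [Set.mem_toFinset]
    exact ⟨w.isPrime, ⟨hw.symm⟩⟩
  refine le_trans ?_ (Finset.sum_le_sum_of_subset h4)
  refine Finset.sum_le_sum fun P hP => ?_
  obtain ⟨w, hw, rfl⟩ := Finset.mem_image.1 hP
  rw [Set.Finite.mem_toFinset] at hw
  have h5 : w.asIdeal.LiesOver v.asIdeal := ⟨hw.symm⟩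
  have h6 : w.asIdeal.IsPrime := w.isPrime
  exact Nat.succ_le_of_lt (Nat.mul_pos (w.asIdeal.ramificationIdx_pos (𝓞 K))
    (w.asIdeal.inertiaDeg_pos (𝓞 K)))

theorem chr {K : Type} [Field K] [NumberField K] {Ω : Type} [Field Ω] [Algebra K Ω]
    [IsAlgClosure K Ω] (Q : DP K Ω) {p : ℕ} (hp : p.Prime) :
    ∃ C A : ℕ, ∀ (T : Finset (Pl K)) (Xs : Finset (Gal(Ω/K) →* Multiplicative (ZMod p))),
      (∀ χ ∈ Xs, FT χ ∧ ∀ v, v ∉ T → ∀ τ ∈ (Q.P v).inertia Gal(Ω/K), χ τ = 1) →
        Xs.card ≤ C * A ^ T.card := by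
  classical
  have hac : IsAlgClosed Ω := IsAlgClosure.isAlgClosed K
  have hchar : CharZero K := inferInstance
  have hcharΩ : CharZero Ω := charZero_of_injective_algebraMap (algebraMap K Ω).injective
  have hpne : NeZero (p : Ω) := ⟨Nat.cast_ne_zero.2 hp.ne_zero⟩
  have hNZ : NeZero p := ⟨hp.ne_zero⟩
  obtain ⟨z, hz⟩ : ∃ z : Ω, IsPrimitiveRoot z p := HasEnoughRootsOfUnity.exists_primitiveRoot Ω p
  have hgal : IsGalois K Ω := IsAlgClosure.isGalois K Ω
  let L : IntermediateField K Ω := IntermediateField.adjoin K {z}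
  have hLf : FiniteDimensional K L :=
    IntermediateField.adjoin.finiteDimensional ((Algebra.IsIntegral.isIntegral z))
  have hLn : NumberField L := NumberField.of_module_finite K L
  have hLa : IsAlgClosure L Ω := ⟨hac, Algebra.IsAlgebraic.tower_top (K := K) L⟩
  let ξ : L := ⟨z, IntermediateField.mem_adjoin_simple_self K z⟩
  have hξ : IsPrimitiveRoot ξ p := by
    refine IsPrimitiveRoot.of_map_of_injective (f := algebraMap L Ω) ?_ (algebraMap L Ω).injective
    exact hz
  obtain ⟨P', hP', hPu'⟩ : ∃ P' : Pl L → Ideal (𝓞 Ω), (∀ w, (P' w).IsPrime) ∧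
      ∀ w, (P' w).under (𝓞 L) = w.asIdeal := by
    choose P' h1 h2 using fun w : Pl L => gloc_over L Ω w.asIdeal w.isPrime
    exact ⟨P', h1, h2⟩
  let Q' : DP L Ω := ⟨P', hP', hPu'⟩
  obtain ⟨C, hC⟩ := kt Q' hp hξ
  let r : Gal(Ω/L) →* Gal(Ω/K) := AlgEquiv.restrictScalarsHom K
  have hrv : ∀ (τ : Gal(Ω/L)) (x : Ω), r τ x = τ x := fun _ _ => rfl
  have hsurj : ∀ σ ∈ L.fixingSubgroup, ∃ τ : Gal(Ω/L), r τ = σ := by
    intro σ hσ
    refine ⟨L.fixingSubgroupEquiv ⟨σ, hσ⟩, ?_⟩
    apply AlgEquiv.ext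
    intro x
    rfl
  have hfin : Finite (Gal(Ω/K) ⧸ L.fixingSubgroup) := by
    have h1 : L.fixingSubgroup.index ≠ 0 := by
      rw [← L.finrank_eq_fixingSubgroup_index]
      exact Module.finrank_pos.ne'
    have h2 : L.fixingSubgroup.FiniteIndex := ⟨h1⟩
    infer_instance
  let _ : Fintype (Gal(Ω/K) ⧸ L.fixingSubgroup) := Fintype.ofFinite _
  have hcard : Fintype.card (Gal(Ω/K) ⧸ L.fixingSubgroup) = Module.finrank K L := by
    rw [L.finrank_eq_fixingSubgroup_index, Subgroup.index, Nat.card_eq_fintype_card]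
  refine ⟨p ^ Module.finrank K L * C, p ^ Module.finrank K L, fun T Xs hXs => ?_⟩
  let T' : Finset (Pl L) := T.biUnion fun v => (over_finite (L := L) v).toFinset
  have hT' : T'.card ≤ Module.finrank K L * T.card := by
    rw [mul_comm]
    exact Finset.card_biUnion_le_card_mul _ _ _ fun v _ => chr_card v
  have h1 : (Xs.image fun χ => χ.comp r).card ≤ C * p ^ T'.card := by
    refine hC T' _ fun φ hφ => ?_
    obtain ⟨χ, hχ, rfl⟩ := Finset.mem_image.1 hφ
    obtain ⟨⟨E, hE, hle⟩, hun⟩ := hXs χ hχ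
    constructor
    · have hEL : FiniteDimensional K ↥(E ⊔ L) := inferInstance
      let M : IntermediateField L Ω := IntermediateField.extendScalars (le_sup_right : L ≤ E ⊔ L)
      have hMf : FiniteDimensional K M := hEL
      have hMf' : FiniteDimensional L M := Module.Finite.of_restrictScalars_finite K L M
      refine ⟨M, hMf', fun τ hτ => ?_⟩
      rw [MonoidHom.mem_ker, MonoidHom.comp_apply]
      apply MonoidHom.mem_ker.1
      apply hle
      rw [IntermediateField.mem_fixingSubgroup_iff] at hτ ⊢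
      intro x hx
      have h2 : x ∈ E ⊔ L := (le_sup_left : E ≤ E ⊔ L) hx
      exact hτ x h2
    · intro w hw τ hτ
      obtain ⟨v, hv⟩ := exists_below (K := K) w
      have hvT : v ∉ T := by
        intro h
        apply hw
        rw [Finset.mem_biUnion]
        exact ⟨v, h, (Set.Finite.mem_toFinset _).2 hv⟩
      have hu : (P' w).under (𝓞 K) = (Q.P v).under (𝓞 K) := by
        rw [Q.under v]
        have h2 : ((P' w).under (𝓞 L)).under (𝓞 K) = (P' w).under (𝓞 K) := Ideal.under_under _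
        rw [← h2, hPu' w]
        exact hv
      obtain ⟨g, hg⟩ := chr_conj (K := K) (Q.P v) (P' w) (Q.prime v) (hP' w) hu.symm
      have h3 : r τ ∈ (P' w).inertia Gal(Ω/K) := fun x => hτ x
      have h4 := hun v hvT _ (hg _ h3)
      rw [map_mul, map_mul, map_inv, mul_comm, mul_inv_cancel_left] at h4
      exact h4
  have h2 : Xs.card ≤ p ^ Module.finrank K L * (Xs.image fun χ => χ.comp r).card := by
    refine Finset.card_le_mul_card_image _ _ fun φ _ => ?_
    let lab : (Gal(Ω/K) →* Multiplicative (ZMod p)) →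
        ((Gal(Ω/K) ⧸ L.fixingSubgroup) → Multiplicative (ZMod p)) := fun χ q => χ q.out
    have hinj : Set.InjOn lab (Xs.filter fun χ => χ.comp r = φ) := by
      intro χ hχ ψ hψ h
      obtain ⟨-, h5⟩ := Finset.mem_filter.1 hχ
      obtain ⟨-, h6⟩ := Finset.mem_filter.1 hψ
      apply MonoidHom.ext
      intro σ
      obtain ⟨s, hs⟩ := QuotientGroup.mk_out_eq_mul L.fixingSubgroup σ
      obtain ⟨τ, hτ⟩ := hsurj s s.2
      have h7 : χ (r τ) = ψ (r τ) := by
        have h8 := DFunLike.congr_fun (h5.trans h6.symm) τ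
        exact h8
      have h9 := congrFun h (σ : Gal(Ω/K) ⧸ L.fixingSubgroup)
      simp only [lab] at h9
      rw [hs, map_mul, map_mul, ← hτ, h7] at h9
      exact mul_right_cancel h9
    rw [← Finset.card_image_of_injOn hinj]
    refine (Finset.card_le_univ _).trans ?_
    rw [Fintype.card_fun, hcard, Fintype.card_multiplicative, ZMod.card]
  calc Xs.card ≤ p ^ Module.finrank K L * (Xs.image fun χ => χ.comp r).card := h2
    _ ≤ p ^ Module.finrank K L * (C * p ^ T'.card) := Nat.mul_le_mul_left _ h1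
    _ ≤ p ^ Module.finrank K L * (C * p ^ (Module.finrank K L * T.card)) :=
        Nat.mul_le_mul_left _ (Nat.mul_le_mul_left _ (Nat.pow_le_pow_right hp.pos hT'))
    _ = p ^ Module.finrank K L * C * (p ^ Module.finrank K L) ^ T.card := by
        rw [← mul_assoc, pow_mul]

end H86.WP
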