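import Pool.Agent.H38.WM.Def

/-!
# WP-DEF: weak Malle for all groups which are `A_4` modulo the hypercentre: definitions (complete)

* `FB Q f`, `f : G →* H`: the homomorphisms `ρ : Gal(QBar/K) →* G` of finite type with `f ∘ ρ = ρ₀` which are unramified outside the
  finite set `T` are at most `C A^#T` in number, `C`, `A` independent of `ρ₀` and `T`.
* `RB Q G`: the surjective `ρ` of finite type with product of the norms of the ramified primes at most `Z` are at most `C Z^(1+ε)` in
  number.
-/

set_option autoImplicit false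

open scoped NumberField
open IsDedekindDomain NumberField H38.ML H63.MA H38.WM

noncomputable section

namespace H86.WP

variable {K : IntermediateField ℚ QBar} [NumberField K]

/-- the number of homomorphisms over a given one with given ramification -/
def FB (Q : DP K QBar) {G H : Type} [Group G] [Group H] (f : G →* H) : Prop :=
  ∃ C A : ℕ, ∀ (T : Finset (Pl K)) (ρ₀ : Gal(QBar/K) →* H) (Rs : Finset (Gal(QBar/K) →* G)),
    (∀ ρ ∈ Rs, f.comp ρ = ρ₀ ∧ FT ρ ∧ ∀ l ∈ Rm Q ρ, l ∈ T) → Rs.card ≤ C * A ^ T.card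

/-- the number of surjective homomorphisms in terms of the product of the ramified primes -/
def RB (Q : DP K QBar) (G : Type) [Group G] : Prop :=
  ∀ ε : ℝ, 0 < ε → ∃ C : ℝ, 0 ≤ C ∧ ∀ Z : ℝ, 1 ≤ Z → ∀ Rs : Finset (Gal(QBar/K) →* G),
    (∀ ρ ∈ Rs, Cn Q Z ρ) → (Rs.card : ℝ) ≤ C * Z ^ (1 + ε)

end H86.WP
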