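import Mathlib

/-!
# WP-DYA: dyadic summation (complete)

`dya`: if at most `C X^t` of the `r i ≥ 1` are `≤ X`, for all `X ≥ 1`, then `∑ (r i)^(-s) ≤ C'` for `s > t`, `C'` depends only on
`C`, `s`, `t`.
-/

set_option autoImplicit false

noncomputable section

namespace H86.WP

theorem dya (C s t : ℝ) (hC : 0 ≤ C) (ht : 0 ≤ t) (hst : t < s) :
    ∃ C' : ℝ, 0 ≤ C' ∧ ∀ {ι : Type} (I : Finset ι) (r : ι → ℝ), (∀ i ∈ I, 1 ≤ r i) →
      (∀ X : ℝ, 1 ≤ X → ∀ J : Finset ι, J ⊆ I → (∀ i ∈ J, r i ≤ X) → (J.card : ℝ) ≤ C * X ^ t) →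
        ∑ i ∈ I, r i ^ (-s) ≤ C' := by
  classical
  set q : ℝ := 2 ^ (t - s) with hq
  have hq0 : 0 < q := Real.rpow_pos_of_pos two_pos _
  have hq1 : q < 1 := Real.rpow_lt_one_of_one_lt_of_neg one_lt_two (by linarith)
  refine ⟨C * 2 ^ t * (1 - q)⁻¹, ?_, ?_⟩
  · have h1 : 0 ≤ (1 - q)⁻¹ := inv_nonneg.2 (by linarith)
    positivity
  intro ι I r hr hcount
  let j : ι → ℕ := fun i => ⌊Real.logb 2 (r i)⌋₊
  have hj : ∀ i ∈ I, (2 : ℝ) ^ (j i : ℝ) ≤ r i ∧ r i ≤ 2 ^ ((j i : ℝ) + 1) := by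
    intro i hi
    have h1 := hr i hi
    have h2 : 0 ≤ Real.logb 2 (r i) := Real.logb_nonneg one_lt_two h1
    have h3 : r i = 2 ^ Real.logb 2 (r i) :=
      (Real.rpow_logb two_pos (by norm_num) (by linarith)).symm
    constructor
    · rw [h3]
      refine Real.rpow_le_rpow_of_exponent_le one_le_two ?_
      exact Nat.floor_le h2
    · rw [h3]
      refine Real.rpow_le_rpow_of_exponent_le one_le_two ?_
      exact (Nat.lt_floor_add_one _).le
  obtain ⟨n, hn⟩ : ∃ n : ℕ, ∀ i ∈ I, j i < n :=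
    ⟨(I.sup j) + 1, fun i hi => Nat.lt_succ_of_le (Finset.le_sup hi)⟩
  have h1 : ∑ i ∈ I, r i ^ (-s) = ∑ m ∈ Finset.range n, ∑ i ∈ I with j i = m, r i ^ (-s) :=
    (Finset.sum_fiberwise_of_maps_to (fun i hi => Finset.mem_range.2 (hn i hi)) _).symm
  have h2 : ∀ m ∈ Finset.range n, ∑ i ∈ I with j i = m, r i ^ (-s) ≤ C * 2 ^ t * q ^ m := by
    intro m _
    have h3 : ∀ i ∈ I.filter fun i => j i = m, r i ^ (-s) ≤ (2 : ℝ) ^ (-(s * m)) := by
      intro i hi
      obtain ⟨h4, h5⟩ := Finset.mem_filter.1 hi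
      have h6 := (hj i h4).1
      rw [h5] at h6
      calc r i ^ (-s) ≤ ((2 : ℝ) ^ (m : ℝ)) ^ (-s) :=
            Real.rpow_le_rpow_of_nonpos (Real.rpow_pos_of_pos two_pos _) h6 (by linarith)
        _ = 2 ^ (-(s * m)) := by
            rw [← Real.rpow_mul two_pos.le]
            congr 1
            ring
    have h4 : ((I.filter fun i => j i = m).card : ℝ) ≤ C * (2 ^ ((m : ℝ) + 1)) ^ t := by
      refine hcount _ (Real.one_le_rpow one_le_two (by positivity)) _ (Finset.filter_subset _ _) ?_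
      intro i hi
      obtain ⟨h4, h5⟩ := Finset.mem_filter.1 hi
      have h6 := (hj i h4).2
      rwa [h5] at h6
    calc ∑ i ∈ I with j i = m, r i ^ (-s)
        ≤ ∑ i ∈ I with j i = m, (2 : ℝ) ^ (-(s * m)) := Finset.sum_le_sum h3
      _ = ((I.filter fun i => j i = m).card : ℝ) * 2 ^ (-(s * m)) := by
          rw [Finset.sum_const, nsmul_eq_mul]
      _ ≤ C * (2 ^ ((m : ℝ) + 1)) ^ t * 2 ^ (-(s * m)) :=
          mul_le_mul_of_nonneg_right h4 (Real.rpow_nonneg two_pos.le _)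
      _ = C * 2 ^ t * q ^ m := by
          rw [hq, ← Real.rpow_natCast, ← Real.rpow_mul two_pos.le, ← Real.rpow_mul two_pos.le,
            mul_assoc, mul_assoc, ← Real.rpow_add two_pos, ← Real.rpow_add two_pos]
          congr 2
          ring
  calc ∑ i ∈ I, r i ^ (-s) ≤ ∑ m ∈ Finset.range n, C * 2 ^ t * q ^ m := by
        rw [h1]
        exact Finset.sum_le_sum h2
    _ = C * 2 ^ t * ∑ m ∈ Finset.range n, q ^ m := by rw [Finset.mul_sum]
    _ ≤ C * 2 ^ t * (1 - q)⁻¹ := by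
        refine mul_le_mul_of_nonneg_left ?_ (by positivity)
        have h3 := (summable_geometric_of_lt_one hq0.le hq1).sum_le_tsum (Finset.range n)
          (fun m _ => pow_nonneg hq0.le m)
        rwa [tsum_geometric_of_lt_one hq0.le hq1] at h3

end H86.WP
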