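import Pool.Agent.H63.MA.ClFin
import Pool.Agent.H63.BU.UOrd
import Pool.Agent.H63.MC.CDef

/-!
# WP-KT: characters of prime order `l` unramified outside `T`, when `K` contains the `l`-th roots of unity

Proof. `T₁` from `exists_clone`, `U` from `unit_reps hl T₁`. Every `χ` is `kc a`, and `l ∣ ord v a` for `v ∉ T`, `v ∤ l` (`uord_at`,
`ld_kk_t`). The label `v ↦ ord v a mod l` on `T ∪ {v ∣ l}` takes at most `l^(#T + #{v ∣ l})` values; two characters with the same label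
differ by `kc x` with `l ∣ ord v x` for all `v`, `x = u y^l`, `u ∈ U`.
-/

set_option autoImplicit false

open scoped NumberField
open IsDedekindDomain NumberField H63.MA

noncomputable section

namespace H86.WP

variable {K : Type} [Field K] [NumberField K]

private theorem kt_unif (v : Pl K) : ∃ π : Kˣ, ord v π = 1 := by
  obtain ⟨π, hπ⟩ := v.valuation_exists_uniformizer K
  have h0 : π ≠ 0 := by
    rintro rfl
    rw [map_zero] at hπ
    exact WithZero.exp_ne_zero hπ.symm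
  refine ⟨Units.mk0 π h0, ?_⟩
  unfold ord
  rw [Units.val_mk0, hπ, WithZero.log_exp]
  rfl

theorem kt_unit {l : ℕ} (hl : l.Prime) {T₁ : Finset (Pl K)} (hT₁ : ClOne T₁) (x : Kˣ)
    (h : ∀ v : Pl K, (l : ℤ) ∣ ord v x) : ∃ u y : Kˣ, TUnit T₁ u ∧ x = u * y ^ l := by
  have hl0 : (l : ℤ) ≠ 0 := by exact_mod_cast hl.ne_zero
  obtain ⟨y, hy⟩ := clone_ord hT₁ (fun v => ord v x / l) (by
    refine (finite_ord x).subset fun v hv => ?_
    rw [Set.mem_setOf_eq] at hv ⊢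
    intro h0
    apply hv
    rw [h0, Int.zero_ediv])
  refine ⟨x * (y ^ l)⁻¹, y, ?_, ?_⟩
  · intro w hw
    rw [ord_mul, ord_inv, ord_pow, hy w hw]
    obtain ⟨k, hk⟩ := h w
    rw [hk, Int.mul_ediv_cancel_left _ hl0]
    ring
  · rw [inv_mul_cancel_right]

variable {Ω : Type} [Field Ω] [Algebra K Ω] [IsAlgClosure K Ω]

theorem kt (Q : DP K Ω) {l : ℕ} (hl : l.Prime) {ξ : K} (hξ : IsPrimitiveRoot ξ l) :
    ∃ C : ℕ, ∀ (T : Finset (Pl K)) (Xs : Finset (Gal(Ω/K) →* Multiplicative (ZMod l))),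
      (∀ χ ∈ Xs, H38.ML.FT χ ∧ ∀ v, v ∉ T → ∀ τ ∈ (Q.P v).inertia Gal(Ω/K), χ τ = 1) →
        Xs.card ≤ C * l ^ T.card := by
  classical
  have hNZ : NeZero l := ⟨hl.ne_zero⟩
  obtain ⟨T₁, hT₁⟩ := exists_clone K
  obtain ⟨U, -, hU⟩ := unit_reps hl T₁
  obtain ⟨Sl, hSl⟩ : ∃ Sl : Finset (Pl K), ∀ v, v ∈ Sl ↔ Above l v :=
    ⟨(finite_above (K := K) hl.ne_zero).toFinset, fun v => Set.Finite.mem_toFinset _⟩
  refine ⟨U.card * l ^ Sl.card, fun T Xs hXs => ?_⟩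
  have hex : ∀ χ : Gal(Ω/K) →* Multiplicative (ZMod l), ∃ a : Kˣ, H38.ML.FT χ → χ = kc l ξ Ω a := by
    intro χ
    by_cases h : H38.ML.FT χ
    · obtain ⟨a, ha⟩ := kc_all hl hξ χ h
      exact ⟨a, fun _ => ha⟩
    · exact ⟨1, fun h' => absurd h' h⟩
  choose a ha using hex
  have hord : ∀ χ ∈ Xs, ∀ v, v ∉ T → v ∉ Sl → (l : ℤ) ∣ ord v (a χ) := by
    intro χ hχ v hv hvl
    obtain ⟨hft, ht⟩ := hXs χ hχ
    obtain ⟨π, hπ⟩ := kt_unif v
    have hvl' : ¬ Above l v := fun h => hvl ((hSl v).2 h)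
    obtain ⟨L', hL'⟩ := H63.BU.uord_at Ω hl hξ hvl' hπ (Q.P v) (Q.prime v) (Q.under v)
    have h1 : kk l ξ (a χ) L'.t = ord v (a χ) := ld_kk_t hl hξ hvl' hπ L' (a χ)
    have h2 : kk l ξ (a χ) L'.t = 0 := by
      unfold kk
      rw [← ha χ hft, ht v hv _ (hL' ▸ L'.ht), toAdd_one]
    rw [h2] at h1
    exact (ZMod.intCast_zmod_eq_zero_iff_dvd _ l).1 h1.symm
  obtain ⟨lab, hlab⟩ : ∃ lab : (Gal(Ω/K) →* Multiplicative (ZMod l)) → (↥(T ∪ Sl) → ZMod l),
      ∀ χ w, lab χ w = (ord w.1 (a χ) : ZMod l) := ⟨fun χ w => (ord w.1 (a χ) : ZMod l), fun _ _ => rfl⟩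
  have hfib : ∀ b ∈ Xs.image lab, (Xs.filter fun χ => lab χ = b).card ≤ U.card := by
    intro b _
    rcases (Xs.filter fun χ => lab χ = b).eq_empty_or_nonempty with h0 | ⟨χ₀, hχ₀⟩
    · rw [h0, Finset.card_empty]
      exact Nat.zero_le _
    obtain ⟨h1, h2⟩ := Finset.mem_filter.1 hχ₀
    have hsub : (Xs.filter fun χ => lab χ = b) ⊆ U.image fun u => kc l ξ Ω (a χ₀ * u) := by
      intro χ hχ
      obtain ⟨h3, h4⟩ := Finset.mem_filter.1 hχ
      have hdvd : ∀ v : Pl K, (l : ℤ) ∣ ord v (a χ * (a χ₀)⁻¹) := by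
        intro v
        rw [ord_mul, ord_inv]
        by_cases hv : v ∈ T ∪ Sl
        · have h5 : lab χ ⟨v, hv⟩ = lab χ₀ ⟨v, hv⟩ := by rw [h4, h2]
          rw [hlab, hlab] at h5
          rw [← sub_eq_add_neg, ← ZMod.intCast_zmod_eq_zero_iff_dvd, Int.cast_sub]
          exact sub_eq_zero.2 h5
        · rw [Finset.mem_union, not_or] at hv
          exact dvd_add (hord χ h3 v hv.1 hv.2) ((dvd_neg).2 (hord χ₀ h1 v hv.1 hv.2))
      obtain ⟨u, y, hu, hx⟩ := kt_unit hl hT₁ _ hdvd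
      obtain ⟨u', hu', y', hy'⟩ := hU u hu
      refine Finset.mem_image.2 ⟨u', hu', ?_⟩
      rw [ha χ (hXs χ h3).1]
      symm
      apply MonoidHom.ext
      intro σ
      have h5 : kk l ξ (a χ) σ = kk l ξ (a χ₀ * u') σ := by
        have h7 : a χ = (a χ₀ * u') * (y' * y) ^ l := by
          rw [mul_pow, ← mul_assoc, mul_assoc (a χ₀) u', ← hy', mul_assoc, ← hx, mul_comm,
            inv_mul_cancel_right]
        rw [h7, kk_mul_arg hl hξ]
        have h6 : kk l ξ ((y' * y) ^ l) σ = 0 :=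
          (kk_eq_zero_iff (Ω := Ω) hl hξ ((y' * y) ^ l)).2 ⟨y' * y, rfl⟩ σ
        rw [h6, add_zero]
      exact Multiplicative.toAdd.injective h5
    exact (Finset.card_le_card hsub).trans Finset.card_image_le
  have h1 := Finset.card_le_mul_card_image Xs U.card hfib
  have h2 : (Xs.image lab).card ≤ l ^ (T.card + Sl.card) := by
    calc (Xs.image lab).card ≤ Fintype.card (↥(T ∪ Sl) → ZMod l) := Finset.card_le_univ _
      _ = l ^ (T ∪ Sl).card := by rw [Fintype.card_fun, ZMod.card, Fintype.card_coe]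
      _ ≤ l ^ (T.card + Sl.card) := Nat.pow_le_pow_right hl.pos (Finset.card_union_le T Sl)
  calc Xs.card ≤ U.card * (Xs.image lab).card := h1
    _ ≤ U.card * l ^ (T.card + Sl.card) := Nat.mul_le_mul_left _ h2
    _ = U.card * l ^ Sl.card * l ^ T.card := by rw [pow_add]; ring

end H86.WP
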