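import Pool.Agent.H86.WP.All
import Pool.Agent.H86.WP.Dya
import Pool.Agent.H86.WP.Fbc

/-!
# WP-RAD: from `H` to `G` (complete)

`rad`: `RBA Q H` and the fibre bound `FB Q f`, `f : G →* H`, give `RBA Q G`.

Proof. Let `T` be the set of ramified primes of `ρ`, `ρ' = f ∘ ρ`, `T' = T ∖ T(ρ')`. For given `(ρ', T')` there are at most `C A^#T`
`ρ`, and `r(ρ') r(T') ≤ Z`. So the number is at most `C Z^(1+ε) ∑ A^#T(ρ') r(ρ')^(-1-ε) ∑ A^#T' r(T')^(-1-ε)`; the second sum is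
bounded (`sumT`), the first by `dya`, as `A^#T ≤ C r(T)^(ε/2)` (`wgt`).
-/

set_option autoImplicit false

open scoped NumberField
open IsDedekindDomain NumberField H38.ML H63.MA H38.WM

noncomputable section

namespace H86.WP

theorem wgt (K : Type) [Field K] [NumberField K] (A : ℕ) (δ : ℝ) (hδ : 0 < δ) :
    ∃ C : ℝ, 0 ≤ C ∧ ∀ T : Finset (Pl K), (A : ℝ) ^ T.card ≤ C * (∏ l ∈ T, (nm l : ℝ)) ^ δ := by
  obtain ⟨k, hk⟩ := exists_nat_gt (2 / δ)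
  have hk0 : 0 < (k : ℝ) := lt_of_le_of_lt (by positivity) hk
  have hkn : k ≠ 0 := by
    rintro rfl
    simp at hk0
  obtain ⟨C, hC0, hC⟩ := sumT K ((A : ℝ) ^ k) 1 (by positivity) one_pos
  refine ⟨C ^ (1 / (k : ℝ)), Real.rpow_nonneg hC0 _, fun T => ?_⟩
  have hP : (1 : ℝ) ≤ ∏ l ∈ T, (nm l : ℝ) :=
    Finset.one_le_prod fun l _ => by exact_mod_cast (one_lt_nm l).le
  set P := ∏ l ∈ T, (nm l : ℝ) with hPd
  have hP0 : 0 < P := by linarith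
  have h1 := hC {T}
  rw [Finset.sum_singleton, ← hPd, div_le_iff₀ (Real.rpow_pos_of_pos hP0 _)] at h1
  have h2 : ((A : ℝ) ^ T.card) ^ k ≤ C * P ^ ((1 : ℝ) + 1) := by
    rw [← pow_mul, mul_comm, pow_mul]
    exact h1
  have h3 : (A : ℝ) ^ T.card ≤ (C * P ^ ((1 : ℝ) + 1)) ^ (1 / (k : ℝ)) := by
    have h4 := Real.rpow_le_rpow (by positivity) h2 (by positivity : 0 ≤ 1 / (k : ℝ))
    rw [one_div] at h4 ⊢
    rwa [Real.pow_rpow_inv_natCast (by positivity) hkn] at h4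
  refine h3.trans ?_
  rw [Real.mul_rpow hC0 (by positivity), ← Real.rpow_mul hP0.le]
  refine mul_le_mul_of_nonneg_left ?_ (Real.rpow_nonneg hC0 _)
  refine Real.rpow_le_rpow_of_exponent_le hP ?_
  rw [div_lt_iff₀ hδ] at hk
  rw [mul_one_div, div_le_iff₀ hk0]
  linarith

variable {K : IntermediateField ℚ QBar} [NumberField K]

theorem rad (Q : DP K QBar) {G H : Type} [Group G] [Group H] (f : G →* H) (hH : RBA Q H)
    (hf : FB Q f) : RBA Q G := by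
  classical
  obtain ⟨C₀, A, hFB⟩ := hf
  intro ε hε
  obtain ⟨Ch, hCh0, hCh⟩ := hH (ε / 4) (by positivity)
  obtain ⟨Cs, hCs0, hCs⟩ := sumT K A ε (Nat.cast_nonneg _) hε
  obtain ⟨Cw, hCw0, hCw⟩ := wgt K A (ε / 2) (by positivity)
  obtain ⟨Cd, hCd0, hCd⟩ := dya Ch (1 + ε / 2) (1 + ε / 4) hCh0 (by positivity) (by linarith)
  refine ⟨C₀ * (Cw * Cd * Cs), by positivity, fun Z hZ Rs hRs => ?_⟩
  -- the two sums
  let g : (Gal(QBar/K) →* H) → ℝ := fun φ => (A : ℝ) ^ (tt Q φ).card / rr Q φ ^ (1 + ε)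
  let h : Finset (Pl K) → ℝ := fun T => (A : ℝ) ^ T.card / (∏ l ∈ T, (nm l : ℝ)) ^ (1 + ε)
  have hg0 : ∀ φ, 0 ≤ g φ := fun φ =>
    div_nonneg (by positivity) (Real.rpow_nonneg (zero_le_one.trans (rr_one Q φ)) _)
  have hh0 : ∀ T, 0 ≤ h T := fun T =>
    div_nonneg (by positivity) (Real.rpow_nonneg (zero_le_one.trans (prod_one T)) _)
  let I₁ : Finset (Gal(QBar/K) →* H) := Rs.image fun ρ => f.comp ρ
  have hI₁ : ∀ φ ∈ I₁, FT φ := by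
    intro φ hφ
    obtain ⟨ρ, hρ, rfl⟩ := Finset.mem_image.1 hφ
    exact ft_comp f (hRs ρ hρ).1
  have hsum₁ : ∑ φ ∈ I₁, g φ ≤ Cw * Cd := by
    have h1 : ∑ φ ∈ I₁, rr Q φ ^ (-(1 + ε / 2)) ≤ Cd := by
      refine hCd I₁ (rr Q) (fun φ _ => rr_one Q φ) fun X hX J hJ hJX => ?_
      exact hCh X hX J fun φ hφ => (cf_iff Q X (hI₁ φ (hJ hφ))).2 (hJX φ hφ)
    have h2 : ∀ φ ∈ I₁, g φ ≤ Cw * rr Q φ ^ (-(1 + ε / 2)) := by
      intro φ _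
      have h3 : 0 < rr Q φ := lt_of_lt_of_le one_pos (rr_one Q φ)
      have h4 := hCw (tt Q φ)
      change (A : ℝ) ^ (tt Q φ).card / rr Q φ ^ (1 + ε) ≤ _
      rw [div_le_iff₀ (Real.rpow_pos_of_pos h3 _), mul_assoc, ← Real.rpow_add h3]
      refine h4.trans (le_of_eq ?_)
      change Cw * rr Q φ ^ (ε / 2) = _
      congr 2
      ring
    calc ∑ φ ∈ I₁, g φ ≤ ∑ φ ∈ I₁, Cw * rr Q φ ^ (-(1 + ε / 2)) := Finset.sum_le_sum h2
      _ = Cw * ∑ φ ∈ I₁, rr Q φ ^ (-(1 + ε / 2)) := by rw [Finset.mul_sum]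
      _ ≤ Cw * Cd := mul_le_mul_of_nonneg_left h1 hCw0
  let I₂ : Finset (Finset (Pl K)) := Rs.image fun ρ => tt Q ρ \ tt Q (f.comp ρ)
  have hsum₂ : ∑ T ∈ I₂, h T ≤ Cs := hCs I₂
  -- the labels
  let lab : (Gal(QBar/K) →* G) → (Gal(QBar/K) →* H) × Finset (Pl K) := fun ρ =>
    (f.comp ρ, tt Q ρ \ tt Q (f.comp ρ))
  have hsub : ∀ ρ ∈ Rs, tt Q (f.comp ρ) ⊆ tt Q ρ := by
    intro ρ hρ l hl
    rw [mem_tt Q (hRs ρ hρ).1]
    exact rm_comp Q f ((mem_tt Q (ft_comp f (hRs ρ hρ).1) l).1 hl)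
  have hfib : ∀ b ∈ Rs.image lab, (((Rs.filter fun ρ => lab ρ = b).card : ℕ) : ℝ) ≤
      C₀ * Z ^ (1 + ε) * (g b.1 * h b.2) := by
    intro b hb
    obtain ⟨ρ₀, hρ₀, rfl⟩ := Finset.mem_image.1 hb
    have h1 : (Rs.filter fun ρ => lab ρ = lab ρ₀).card ≤ C₀ * A ^ (tt Q ρ₀).card := by
      refine hFB (tt Q ρ₀) (f.comp ρ₀) _ fun ρ hρ => ?_
      obtain ⟨h2, h3⟩ := Finset.mem_filter.1 hρ
      have h4 : f.comp ρ = f.comp ρ₀ := congrArg Prod.fst h3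
      have h5 : tt Q ρ \ tt Q (f.comp ρ) = tt Q ρ₀ \ tt Q (f.comp ρ₀) := congrArg Prod.snd h3
      refine ⟨h4, (hRs ρ h2).1, fun l hl => ?_⟩
      have h6 : tt Q ρ = tt Q ρ₀ := by
        rw [← Finset.sdiff_union_of_subset (hsub ρ h2), h5, h4,
          Finset.sdiff_union_of_subset (hsub ρ₀ hρ₀)]
      rw [← h6]
      exact (mem_tt Q (hRs ρ h2).1 l).2 hl
    have h2 : (A : ℝ) ^ (tt Q ρ₀).card ≤ Z ^ (1 + ε) * (g (f.comp ρ₀) *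
        h (tt Q ρ₀ \ tt Q (f.comp ρ₀))) := by
      set T₁ := tt Q (f.comp ρ₀) with hT₁
      set T₂ := tt Q ρ₀ \ T₁ with hT₂
      have h3 : tt Q ρ₀ = T₂ ∪ T₁ := (Finset.sdiff_union_of_subset (hsub ρ₀ hρ₀)).symm
      have h4 : Disjoint T₂ T₁ := Finset.sdiff_disjoint
      have h5 : (tt Q ρ₀).card = T₂.card + T₁.card := by
        rw [h3, Finset.card_union_of_disjoint h4]
      have h6 : (∏ l ∈ T₂, (nm l : ℝ)) * ∏ l ∈ T₁, (nm l : ℝ) ≤ Z := by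
        rw [← Finset.prod_union h4, ← h3]
        exact (cf_iff Q Z (hRs ρ₀ hρ₀).1).1 (hRs ρ₀ hρ₀)
      have hP₁ : 0 < ∏ l ∈ T₁, (nm l : ℝ) := lt_of_lt_of_le one_pos (prod_one T₁)
      have hP₂ : 0 < ∏ l ∈ T₂, (nm l : ℝ) := lt_of_lt_of_le one_pos (prod_one T₂)
      have h7 : ((∏ l ∈ T₂, (nm l : ℝ)) * ∏ l ∈ T₁, (nm l : ℝ)) ^ (1 + ε) ≤ Z ^ (1 + ε) :=
        Real.rpow_le_rpow (by positivity) h6 (by positivity)
      rw [Real.mul_rpow hP₂.le hP₁.le] at h7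
      have h8 : g (f.comp ρ₀) * h T₂ = (A : ℝ) ^ (tt Q ρ₀).card /
          ((∏ l ∈ T₂, (nm l : ℝ)) ^ (1 + ε) * (∏ l ∈ T₁, (nm l : ℝ)) ^ (1 + ε)) := by
        change (A : ℝ) ^ T₁.card / (∏ l ∈ T₁, (nm l : ℝ)) ^ (1 + ε) *
          ((A : ℝ) ^ T₂.card / (∏ l ∈ T₂, (nm l : ℝ)) ^ (1 + ε)) = _
        rw [h5, pow_add, div_mul_div_comm]
        congr 1
        · ring
        · ring
      rw [h8, ← mul_div_assoc, le_div_iff₀ (by positivity), mul_comm]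
      exact mul_le_mul_of_nonneg_right h7 (by positivity)
    calc (((Rs.filter fun ρ => lab ρ = lab ρ₀).card : ℕ) : ℝ) ≤ C₀ * (A : ℝ) ^ (tt Q ρ₀).card := by
          exact_mod_cast h1
      _ ≤ C₀ * (Z ^ (1 + ε) * (g (f.comp ρ₀) * h (tt Q ρ₀ \ tt Q (f.comp ρ₀)))) :=
          mul_le_mul_of_nonneg_left h2 (Nat.cast_nonneg _)
      _ = C₀ * Z ^ (1 + ε) * (g (f.comp ρ₀) * h (tt Q ρ₀ \ tt Q (f.comp ρ₀))) := by ring
  have hcard : (Rs.card : ℝ) = ∑ b ∈ Rs.image lab, (((Rs.filter fun ρ => lab ρ = b).card : ℕ) : ℝ) := by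
    rw [Finset.card_eq_sum_card_image lab Rs]
    push_cast
    rfl
  have hsubI : Rs.image lab ⊆ I₁ ×ˢ I₂ := by
    intro b hb
    obtain ⟨ρ, hρ, rfl⟩ := Finset.mem_image.1 hb
    exact Finset.mem_product.2 ⟨Finset.mem_image_of_mem _ hρ, Finset.mem_image_of_mem _ hρ⟩
  have hZ0 : 0 ≤ Z ^ (1 + ε) := Real.rpow_nonneg (by linarith) _
  calc (Rs.card : ℝ) = ∑ b ∈ Rs.image lab, (((Rs.filter fun ρ => lab ρ = b).card : ℕ) : ℝ) := hcard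
    _ ≤ ∑ b ∈ Rs.image lab, C₀ * Z ^ (1 + ε) * (g b.1 * h b.2) := Finset.sum_le_sum hfib
    _ ≤ ∑ b ∈ I₁ ×ˢ I₂, C₀ * Z ^ (1 + ε) * (g b.1 * h b.2) := by
        refine Finset.sum_le_sum_of_subset_of_nonneg hsubI fun b _ _ => ?_
        exact mul_nonneg (mul_nonneg (Nat.cast_nonneg _) hZ0) (mul_nonneg (hg0 _) (hh0 _))
    _ = C₀ * Z ^ (1 + ε) * ((∑ φ ∈ I₁, g φ) * ∑ T ∈ I₂, h T) := by
        rw [← Finset.mul_sum, Finset.sum_mul_sum, Finset.sum_product]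
    _ ≤ C₀ * Z ^ (1 + ε) * ((Cw * Cd) * Cs) := by
        refine mul_le_mul_of_nonneg_left ?_ (mul_nonneg (Nat.cast_nonneg _) hZ0)
        exact mul_le_mul hsum₁ hsum₂ (Finset.sum_nonneg fun T _ => hh0 T) (by positivity)
    _ = C₀ * (Cw * Cd * Cs) * Z ^ (1 + ε) := by ring

end H86.WP
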