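import Pool.Agent.H88.A4.Fin3

/-!
Draft of the hand-in file of W1+ (every number field).
-/

open H38.ML.Spec

namespace H86.WP

theorem resW
    (n : ℕ) (hn : 2 ≤ n) (G : Subgroup (Equiv.Perm (Fin n)))
    (hG : MulAction.IsPretransitive G (Fin n))
    (k : ℕ) (hA : Nonempty (G ⧸ Subgroup.upperCentralSeries G k ≃* alternatingGroup (Fin 4)))
    (K : IntermediateField ℚ (AlgebraicClosure ℚ)) (hK : NumberField K)
    (ε : ℝ) (hε : 0 < ε) :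
    ∃ C : ℝ, 0 < C ∧ ∀ B : ℝ, 1 ≤ B →
      nK K (AlgebraicClosure ℚ) G B ≤ ((⌊C * B ^ (1 / (indG G : ℝ) + ε)⌋₊ : ℕ) : ℕ∞) :=
  H88.A4.weak_malle_plus hn G hG k hA K ε hε

end H86.WP
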