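import Mathlib

/-!
# WP-SERA: extensions of nilpotent groups by a normal subgroup of order dividing 4, first part (complete)

* `ser_two`: a normal subgroup with at most two elements is central.
* `ser_nil`: `V` normal, `#V ∣ 4`, `G / V` nilpotent, `V = 1` or `V ∩ Z(G) ≠ 1`: `G` is nilpotent.
* `ser_fix`: `#V = 4`, `V ∩ Z(G) = 1`, `T` a Sylow 3-subgroup: an element of `V` which commutes with `T` is `1`.
-/

set_option autoImplicit false

namespace H86.WP

theorem ser_two {G : Type} [Group G] [Finite G] (N : Subgroup G) [hN : N.Normal]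
    (h : Nat.card N ≤ 2) : N ≤ Subgroup.center G := by
  intro x hx
  rw [Subgroup.mem_center_iff]
  intro g
  by_cases h1 : x = 1
  · rw [h1, mul_one, one_mul]
  have h2 : g * x * g⁻¹ ∈ N := hN.conj_mem x hx g
  have h3 : g * x * g⁻¹ ≠ 1 := by
    intro h0
    apply h1
    have h4 : x = g⁻¹ * (g * x * g⁻¹) * g := by group
    rw [h4, h0]
    group
  by_contra h5
  have h6 : g * x * g⁻¹ ≠ x := fun h0 => h5 (by
    rw [mul_inv_eq_iff_eq_mul] at h0
    exact h0)
  let _ : Fintype N := Fintype.ofFinite _
  have h7 : 2 < (Finset.univ : Finset N).card := by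
    rw [Finset.two_lt_card]
    refine ⟨1, Finset.mem_univ _, ⟨x, hx⟩, Finset.mem_univ _, ⟨g * x * g⁻¹, h2⟩,
      Finset.mem_univ _, ?_, ?_, ?_⟩
    · exact fun h0 => h1 (congrArg Subtype.val h0).symm
    · exact fun h0 => h3 (congrArg Subtype.val h0).symm
    · exact fun h0 => h6 (congrArg Subtype.val h0).symm
  rw [Finset.card_univ, ← Nat.card_eq_fintype_card] at h7
  omega

/-- the index of `A` in `V`, as the order of the image in `G / A` -/
private theorem ser_card {G : Type} [Group G] [Finite G] (A V : Subgroup G) [A.Normal]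
    (h : A ≤ V) : Nat.card A * Nat.card (V.map (QuotientGroup.mk' A)) = Nat.card V := by
  have h1 : (V.map (QuotientGroup.mk' A)).index = V.index := by
    rw [Subgroup.index_map, QuotientGroup.ker_mk', sup_eq_left.2 h,
      MonoidHom.range_eq_top.2 (QuotientGroup.mk'_surjective A), Subgroup.index_top, mul_one]
  have h2 := (V.map (QuotientGroup.mk' A)).card_mul_index
  have h3 := V.card_mul_index
  have h4 : Nat.card A * Nat.card (G ⧸ A) = Nat.card G := by
    rw [← Subgroup.index_eq_card]
    exact A.card_mul_index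
  have h5 : 0 < V.index := Nat.pos_of_ne_zero Subgroup.FiniteIndex.index_ne_zero
  rw [h1] at h2
  have h6 : (Nat.card A * Nat.card (V.map (QuotientGroup.mk' A))) * V.index =
      Nat.card V * V.index := by
    rw [h3, mul_assoc, h2, h4]
  exact Nat.eq_of_mul_eq_mul_right h5 h6

theorem ser_nil {G : Type} [Group G] [Finite G] (V : Subgroup G) [hV : V.Normal]
    (h4 : Nat.card V ∣ 4) (hn : Group.IsNilpotent (G ⧸ V))
    (h : V = ⊥ ∨ V ⊓ Subgroup.center G ≠ ⊥) : Group.IsNilpotent G := by
  rcases h with h | h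
  · have := hn
    refine Subgroup.isNilpotent_of_ker_le_center (QuotientGroup.mk' V) ?_
    rw [QuotientGroup.ker_mk', h]
    exact bot_le
  let A : Subgroup G := V ⊓ Subgroup.center G
  have hAV : A ≤ V := inf_le_left
  have hAc : A ≤ Subgroup.center G := inf_le_right
  have hAn : A.Normal := inferInstance
  have h1 := ser_card A V hAV
  have h2 : Nat.card A ≠ 1 := fun h0 => h (Subgroup.card_eq_one.1 h0)
  have h3 : Nat.card V ≤ 4 := Nat.le_of_dvd (by norm_num) h4
  have h5 : 0 < Nat.card A := Nat.card_pos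
  have h6 : Nat.card (V.map (QuotientGroup.mk' A)) ≤ 2 := by
    by_contra h0
    have h7 : 2 ≤ Nat.card A := by omega
    have h8 : 2 * 3 ≤ Nat.card A * Nat.card (V.map (QuotientGroup.mk' A)) :=
      Nat.mul_le_mul h7 (by omega)
    omega
  have hn' : Group.IsNilpotent (G ⧸ A) := by
    have hVn : (V.map (QuotientGroup.mk' A)).Normal :=
      hV.map _ (QuotientGroup.mk'_surjective A)
    let f : G ⧸ A →* G ⧸ V := QuotientGroup.lift A (QuotientGroup.mk' V) fun x hx =>
      (QuotientGroup.eq_one_iff x).2 (hAV hx)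
    have := hn
    refine Subgroup.isNilpotent_of_ker_le_center f ?_
    refine le_trans ?_ (ser_two (V.map (QuotientGroup.mk' A)) h6)
    intro x hx
    obtain ⟨y, rfl⟩ := QuotientGroup.mk_surjective x
    have h7 : QuotientGroup.mk' V y = 1 := hx
    exact ⟨y, (QuotientGroup.eq_one_iff y).1 h7, rfl⟩
  refine Subgroup.isNilpotent_of_ker_le_center (QuotientGroup.mk' A) ?_
  rw [QuotientGroup.ker_mk']
  exact hAc

theorem ser_fix {G : Type} [Group G] [Finite G] (V : Subgroup G) [hV : V.Normal]
    (h4 : Nat.card V = 4) (hc : V ⊓ Subgroup.center G = ⊥) (T : Sylow 3 G) (v : G) (hv : v ∈ V)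
    (hT : ∀ t ∈ T, t * v = v * t) : v = 1 := by
  classical
  by_contra hv1
  let act : MulAction G V := MulAction.compHom V (MulAut.conjNormal : G →* MulAut V)
  have hact : ∀ (g : G) (x : V), ((g • x : V) : G) = g * x * g⁻¹ := fun g x => rfl
  have hact1 : ∀ g : G, g • (1 : V) = 1 := by
    intro g
    apply Subtype.ext
    rw [hact]
    simp
  have hcen : ∀ x : V, (∀ g : G, g • x = x) → x = 1 := by
    intro x hx
    have h1 : (x : G) ∈ V ⊓ Subgroup.center G := by
      refine ⟨x.2, ?_⟩
      refine Subgroup.mem_center_iff.2 fun g => ?_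
      have h2 := congrArg Subtype.val (hx g)
      rw [hact, mul_inv_eq_iff_eq_mul] at h2
      exact h2
    rw [hc, Subgroup.mem_bot] at h1
    exact Subtype.ext h1
  let v' : V := ⟨v, hv⟩
  have hv' : v' ≠ 1 := fun h0 => hv1 (congrArg Subtype.val h0)
  let _ : Fintype V := Fintype.ofFinite _
  have hcard : Fintype.card V = 4 := by rw [← Nat.card_eq_fintype_card, h4]
  -- the orbit
  let O : Set V := MulAction.orbit G v'
  have hO1 : ∀ x ∈ O, x ≠ 1 := by
    rintro x ⟨g, rfl⟩ h0
    apply hv'
    have h1 : g⁻¹ • g • v' = g⁻¹ • (1 : V) := by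
      have h2 : g • v' = 1 := h0
      rw [h2]
    rw [inv_smul_smul, hact1] at h1
    exact h1
  have hndvd : ¬ 3 ∣ O.ncard := by
    rw [← MulAction.index_stabilizer G v']
    have h1 : (T : Subgroup G) ≤ MulAction.stabilizer G v' := by
      intro t ht
      rw [MulAction.mem_stabilizer_iff]
      apply Subtype.ext
      rw [hact]
      change t * v * t⁻¹ = v
      rw [hT t ht, mul_inv_cancel_right]
    intro h2
    exact T.not_dvd_index (h2.trans (Subgroup.index_dvd_of_le h1))
  have hOne : O.ncard ≠ 0 :=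
     Set.ncard_ne_zero_of_mem (MulAction.mem_orbit_self v') (Set.toFinite _)
  have hle : O.ncard ≤ 3 := by
    have h1 : O ⊆ {1}ᶜ := fun x hx => hO1 x hx
    have h2 := Set.ncard_le_ncard h1 (Set.toFinite _)
    rw [Set.ncard_compl, Set.ncard_singleton, h4] at h2
    exact h2
  have hcases : O.ncard = 1 ∨ O.ncard = 2 := by
    have h1 : O.ncard ≠ 3 := fun h0 => hndvd (by rw [h0])
    omega
  rcases hcases with h1 | h1
  · obtain ⟨y, hy⟩ := Set.ncard_eq_one.1 h1
    have h2 : v' = y := by
      have h3 : v' ∈ O := MulAction.mem_orbit_self v'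
      rw [hy] at h3
      exact h3
    apply hv'
    apply hcen
    intro g
    have h3 : g • v' ∈ O := MulAction.mem_orbit v' g
    rw [hy] at h3
    exact h3.trans h2.symm
  · have h2 : (insert (1 : V) O)ᶜ.ncard = 1 := by
      rw [Set.ncard_compl, Set.ncard_insert_of_notMem (fun h0 => hO1 1 h0 rfl) (Set.toFinite _),
        h1, h4]
    obtain ⟨w, hw⟩ := Set.ncard_eq_one.1 h2
    have hw1 : w ∈ (insert (1 : V) O)ᶜ := by
      rw [hw]
      rfl
    rw [Set.mem_compl_iff, Set.mem_insert_iff, not_or] at hw1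
    apply hw1.1
    apply hcen
    intro g
    have h3 : g • w ∈ (insert (1 : V) O)ᶜ := by
      rw [Set.mem_compl_iff, Set.mem_insert_iff, not_or]
      constructor
      · intro h0
        apply hw1.1
        have h5 : g⁻¹ • g • w = g⁻¹ • (1 : V) := by rw [h0]
        rw [inv_smul_smul, hact1] at h5
        exact h5
      · intro h0
        apply hw1.2
        obtain ⟨a, ha⟩ := h0
        refine ⟨g⁻¹ * a, ?_⟩
        have h5 : a • v' = g • w := ha
        change (g⁻¹ * a) • v' = w
        rw [mul_smul, h5, inv_smul_smul]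
    rw [hw] at h3
    exact h3

end H86.WP
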