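import Pool.Agent.H86.WP.SerA

/-!
# WP-SERB: extensions of nilpotent groups by a normal subgroup of order dividing 4, second part (complete)

`ser_grp`: `V` normal in the finite group `G`, `#V ∣ 4`, `G / V` nilpotent: there is `φ : G →* S_4` whose kernel is in the hypercentre
and whose image is nilpotent or `A_4`.

Proof. If `G` is not nilpotent, then `#V = 4` and `V ∩ Z(G) = 1` (`ser_nil`). `L`, the normaliser of a Sylow 3-subgroup `T`, is a
complement of `V` (Frattini; `ser_fix`). `φ`: the action on the 4 cosets of `L`; the kernel commutes with `V`, is contained in `L`, and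
`L ≅ G / V` is nilpotent. The image has order 4, 8, 12 or 24, and 24 is impossible, as `G` has a normal 2-subgroup of odd index.
-/

set_option autoImplicit false

open scoped commutatorElement

namespace H86.WP

section

variable {G : Type} [Group G] [Finite G] (V : Subgroup G) [hV : V.Normal]

omit hV in
private theorem ser_coprime (h4 : Nat.card V = 4) (T : Sylow 3 G) : (T : Subgroup G) ⊓ V = ⊥ := by
  rw [← disjoint_iff]
  apply Subgroup.disjoint_of_coprime_natCard
  obtain ⟨k, hk⟩ := T.2.exists_card_eq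
  have h1 : Nat.card (T : Subgroup G) = 3 ^ k := hk
  rw [h1, h4]
  exact Nat.Coprime.pow_left k (by norm_num)

private theorem ser_compl (h4 : Nat.card V = 4) (hc : V ⊓ Subgroup.center G = ⊥)
    (hn : Group.IsNilpotent (G ⧸ V)) (T : Sylow 3 G) :
    Subgroup.normalizer (T : Set G) ⊓ V = ⊥ ∧ Subgroup.normalizer (T : Set G) ⊔ V = ⊤ := by
  constructor
  · rw [eq_bot_iff]
    rintro v ⟨hv1, hv2⟩
    rw [Subgroup.mem_bot]
    refine ser_fix V h4 hc T v hv2 fun t ht => ?_
    have h1 : v * t * v⁻¹ ∈ (T : Subgroup G) := by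
      have h2 := (Subgroup.mem_normalizer_iff.1 hv1) t
      exact h2.1 ht
    have h2 : v * t * v⁻¹ * t⁻¹ ∈ (T : Subgroup G) ⊓ V := by
      refine ⟨(T : Subgroup G).mul_mem h1 ((T : Subgroup G).inv_mem ht), ?_⟩
      have h3 : v * t * v⁻¹ * t⁻¹ = v * (t * v⁻¹ * t⁻¹) := by group
      rw [h3]
      exact V.mul_mem hv2 (hV.conj_mem _ (V.inv_mem hv2) t)
    rw [ser_coprime V h4 T, Subgroup.mem_bot, mul_inv_eq_one, mul_inv_eq_iff_eq_mul] at h2
    exact h2.symm
  · -- Frattini
    have h1 : ((T : Subgroup G) ⊔ V).Normal := by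
      have h2 : ((T.mapSurjective (QuotientGroup.mk'_surjective V) : Sylow 3 (G ⧸ V)) :
          Subgroup (G ⧸ V)).Normal := by
        have h3 := (Group.isNilpotent_of_finite_tfae (G := G ⧸ V)).out 0 3
        exact h3.1 hn 3 ⟨Nat.prime_three⟩ _
      rw [Sylow.coe_mapSurjective] at h2
      have h3 : ((T : Subgroup G).map (QuotientGroup.mk' V)).comap (QuotientGroup.mk' V) =
          (T : Subgroup G) ⊔ V := by
        rw [Subgroup.comap_map_eq, QuotientGroup.ker_mk']
      rw [← h3]
      exact h2.comap _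
    have h2 := Sylow.normalizer_sup_eq_top' T (le_sup_left : (T : Subgroup G) ≤ (T : Subgroup G) ⊔ V)
    rw [eq_top_iff, ← h2]
    refine sup_le le_sup_left (sup_le ?_ le_sup_right)
    exact Subgroup.le_normalizer.trans le_sup_left


omit [Finite G] in
private theorem ser_ker (L : Subgroup G) (h1 : L ⊓ V = ⊥) (h2 : L ⊔ V = ⊤)
    (hn : Group.IsNilpotent (G ⧸ V)) :
    ∃ k, L.normalCore ≤ Subgroup.upperCentralSeries G k := by
  -- `L` is nilpotent
  have hL : Group.IsNilpotent L := by
    have h3 : Function.Injective ((QuotientGroup.mk' V).comp L.subtype) := by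
      rw [injective_iff_map_eq_one]
      intro x hx
      have h4 : (x : G) ∈ L ⊓ V := ⟨x.2, (QuotientGroup.eq_one_iff (x : G)).1 hx⟩
      rw [h1, Subgroup.mem_bot] at h4
      exact Subtype.ext h4
    have := hn
    refine Subgroup.isNilpotent_of_ker_le_center ((QuotientGroup.mk' V).comp L.subtype) ?_
    rw [(MonoidHom.ker_eq_bot_iff _).2 h3]
    exact bot_le
  obtain ⟨k, hk⟩ := hL.nilpotent'
  refine ⟨k, ?_⟩
  have hcomm : ∀ x ∈ L.normalCore, ∀ v ∈ V, x * v = v * x := by
    intro x hx v hv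
    have h3 : x * v * x⁻¹ * v⁻¹ ∈ L ⊓ V := by
      constructor
      · have h4 : x * v * x⁻¹ * v⁻¹ = x * (v * x⁻¹ * v⁻¹) := by group
        rw [h4]
        exact L.normalCore_le (L.normalCore.mul_mem hx
          ((L.normalCore_normal).conj_mem _ (L.normalCore.inv_mem hx) v))
      · exact V.mul_mem (hV.conj_mem v hv x) (V.inv_mem hv)
    rw [h1, Subgroup.mem_bot, mul_inv_eq_one, mul_inv_eq_iff_eq_mul] at h3
    exact h3
  have hmain : ∀ i : ℕ, ∀ x : L, (x : G) ∈ L.normalCore → x ∈ Subgroup.upperCentralSeries L i →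
      (x : G) ∈ Subgroup.upperCentralSeries G i := by
    intro i
    induction i with
    | zero =>
      intro x _ hx
      rw [Subgroup.upperCentralSeries_zero, Subgroup.mem_bot] at hx ⊢
      rw [hx]
      rfl
    | succ i ih =>
      intro x hxM hx
      rw [Subgroup.mem_upperCentralSeries_succ_iff] at hx ⊢
      intro y
      have hy : y ∈ L ⊔ V := by
        rw [h2]
        exact Subgroup.mem_top y
      obtain ⟨l, hl, v, hv, rfl⟩ := Subgroup.mem_sup_of_normal_right.1 hy
      have h3 : v * (x : G)⁻¹ = (x : G)⁻¹ * v :=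
        (hcomm _ (L.normalCore.inv_mem hxM) v hv).symm
      have h4 : ⁅(x : G), l * v⁆ = ⁅(x : G), l⁆ := by
        rw [commutatorElement_def, commutatorElement_def]
        calc (x : G) * (l * v) * (x : G)⁻¹ * (l * v)⁻¹
            = (x : G) * l * (v * (x : G)⁻¹) * v⁻¹ * l⁻¹ := by group
          _ = (x : G) * l * (x : G)⁻¹ * l⁻¹ := by
              rw [h3]
              group
      rw [h4]
      have h5 : ⁅(x : G), l⁆ = ((⁅x, (⟨l, hl⟩ : L)⁆ : L) : G) := rfl
      rw [h5]
      refine ih _ ?_ (hx ⟨l, hl⟩)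
      rw [← h5, commutatorElement_def]
      have h6 : (x : G) * l * (x : G)⁻¹ * l⁻¹ = (x : G) * (l * (x : G)⁻¹ * l⁻¹) := by group
      rw [h6]
      exact L.normalCore.mul_mem hxM
        ((L.normalCore_normal).conj_mem _ (L.normalCore.inv_mem hxM) l)
  intro x hx
  have hxL : x ∈ L := L.normalCore_le hx
  exact hmain k ⟨x, hxL⟩ hx (by
    rw [hk]
    exact Subgroup.mem_top _)

omit [Finite G] in
private theorem ser_index (L : Subgroup G) (h1 : L ⊓ V = ⊥) (h2 : L ⊔ V = ⊤)
    (h4 : Nat.card V = 4) : L.index = 4 := by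
  have h3 : Subgroup.IsComplement' V L := by
    refine Subgroup.isComplement'_of_disjoint_and_mul_eq_univ ?_ ?_
    · rw [disjoint_iff, inf_comm]
      exact h1
    · rw [← Subgroup.normal_mul, sup_comm, h2]
      rfl
  rw [h3.index_eq_card, h4]

/-- the symmetric group of degree 4 is not an image -/
private theorem ser_surj (h4 : Nat.card V = 4) (hn : Group.IsNilpotent (G ⧸ V))
    (φ : G →* Equiv.Perm (Fin 4)) (hφ : Function.Surjective φ) : False := by
  have h2f : Fact (Nat.Prime 2) := ⟨Nat.prime_two⟩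
  let P : Sylow 2 (G ⧸ V) := default
  have hP : (P : Subgroup (G ⧸ V)).Normal := by
    have h3 := (Group.isNilpotent_of_finite_tfae (G := G ⧸ V)).out 0 3
    exact h3.1 hn 2 h2f P
  let N : Subgroup (Equiv.Perm (Fin 4)) := ((P : Subgroup (G ⧸ V)).comap (QuotientGroup.mk' V)).map φ
  have hNn : N.Normal := (hP.comap _).map φ hφ
  have hNp : IsPGroup 2 N := by
    refine IsPGroup.map ?_ φ
    refine P.2.comap_of_ker_isPGroup (QuotientGroup.mk' V) ?_
    rw [QuotientGroup.ker_mk']
    exact IsPGroup.of_card (n := 2) (by rw [h4]; norm_num)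
  have hNi : ¬ 2 ∣ N.index := by
    intro h
    have h5 : N.index ∣ (P : Subgroup (G ⧸ V)).index := by
      rw [← Subgroup.index_comap_of_surjective (P : Subgroup (G ⧸ V))
        (QuotientGroup.mk'_surjective V)]
      exact Subgroup.index_map_dvd _ hφ
    exact P.not_dvd_index (h.trans h5)
  obtain ⟨m, hm⟩ : ∃ m, N.index = 2 * m + 1 := ⟨N.index / 2, by omega⟩
  have htop : N = ⊤ := by
    rw [eq_top_iff, ← Equiv.Perm.closure_isSwap, Subgroup.closure_le]
    intro σ hσ
    have h6 : σ * σ = 1 := by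
      obtain ⟨x, y, hxy, rfl⟩ := hσ
      exact Equiv.swap_mul_self x y
    have h7 := N.pow_index_mem σ
    rw [hm, pow_succ, pow_mul, pow_two, h6, one_pow, one_mul] at h7
    exact h7
  obtain ⟨k, hk⟩ := hNp.exists_card_eq
  have h8 : Nat.card N = 24 := by
    rw [htop, Nat.card_congr Subgroup.topEquiv.toEquiv, Nat.card_eq_fintype_card,
      Fintype.card_perm, Fintype.card_fin]
    rfl
  rw [h8] at hk
  have h9 : 3 ∣ 2 ^ k := ⟨8, by rw [← hk]⟩
  have h10 := Nat.prime_three.dvd_of_dvd_pow h9
  omega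

end

theorem ser_grp {G : Type} [Group G] [Finite G] (V : Subgroup G) [hV : V.Normal]
    (h4 : Nat.card V ∣ 4) (hn : Group.IsNilpotent (G ⧸ V)) :
    ∃ (φ : G →* Equiv.Perm (Fin 4)) (k : ℕ), φ.ker ≤ Subgroup.upperCentralSeries G k ∧
      (Group.IsNilpotent φ.range ∨ φ.range = alternatingGroup (Fin 4)) := by
  by_cases hG : Group.IsNilpotent G
  · obtain ⟨k, hk⟩ := hG.nilpotent'
    refine ⟨1, k, by rw [hk]; exact le_top, Or.inl ?_⟩
    rw [MonoidHom.range_one]
    infer_instance
  have hV1 : V ≠ ⊥ := fun h => hG (ser_nil V h4 hn (Or.inl h))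
  have hVc : V ⊓ Subgroup.center G = ⊥ := by
    by_contra h
    exact hG (ser_nil V h4 hn (Or.inr h))
  have hV4 : Nat.card V = 4 := by
    have h1 : ¬ Nat.card V ≤ 2 := by
      intro h
      apply hV1
      have h2 := ser_two V h
      rwa [inf_eq_left.2 h2] at hVc
    have h2 : Nat.card V ≤ 4 := Nat.le_of_dvd (by norm_num) h4
    have h3 : Nat.card V ≠ 3 := by
      intro h
      rw [h] at h4
      omega
    omega
  let T : Sylow 3 G := default
  obtain ⟨h1, h2⟩ := ser_compl V hV4 hVc hn T
  obtain ⟨L, hL⟩ : ∃ L : Subgroup G, L = Subgroup.normalizer (T : Set G) := ⟨_, rfl⟩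
  rw [← hL] at h1 h2
  obtain ⟨k, hk⟩ := ser_ker V L h1 h2 hn
  have hidx := ser_index V L h1 h2 hV4
  rw [Subgroup.index_eq_card] at hidx
  let e : G ⧸ L ≃ Fin 4 := Finite.equivFinOfCardEq hidx
  let φ : G →* Equiv.Perm (Fin 4) :=
    e.permCongrHom.toMonoidHom.comp (MulAction.toPermHom G (G ⧸ L))
  have hker : φ.ker = L.normalCore := by
    rw [L.normalCore_eq_ker]
    ext x
    rw [MonoidHom.mem_ker, MonoidHom.mem_ker]
    constructor
    · intro h
      have h5 : e.permCongrHom ((MulAction.toPermHom G (G ⧸ L)) x) = 1 := h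
      exact (MulEquiv.map_eq_one_iff _).1 h5
    · intro h
      change e.permCongrHom ((MulAction.toPermHom G (G ⧸ L)) x) = 1
      rw [h, map_one]
  refine ⟨φ, k, by rw [hker]; exact hk, ?_⟩
  have hperm : Nat.card (Equiv.Perm (Fin 4)) = 24 := by
    rw [Nat.card_eq_fintype_card, Fintype.card_perm, Fintype.card_fin]
    rfl
  have hd1 : Nat.card φ.range ∣ 24 := by
    rw [← hperm]
    exact Subgroup.card_subgroup_dvd_card φ.range
  have hd2 : 4 ∣ Nat.card φ.range := by
    have h5 : Function.Injective (φ.rangeRestrict.comp V.subtype) := by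
      rw [injective_iff_map_eq_one]
      intro x hx
      have h6 : φ (x : G) = 1 := congrArg Subtype.val hx
      have h7 : (x : G) ∈ L.normalCore := by
        rw [← hker]
        exact h6
      have h8 : (x : G) ∈ L ⊓ V := ⟨L.normalCore_le h7, x.2⟩
      rw [h1, Subgroup.mem_bot] at h8
      exact Subtype.ext h8
    have h9 := Subgroup.card_dvd_of_injective _ h5
    rwa [hV4] at h9
  have hle : Nat.card φ.range ≤ 24 := Nat.le_of_dvd (by norm_num) hd1
  have hpos : 0 < Nat.card φ.range := Nat.card_pos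
  have h2f : Fact (Nat.Prime 2) := ⟨Nat.prime_two⟩
  have hcases : Nat.card φ.range = 4 ∨ Nat.card φ.range = 8 ∨ Nat.card φ.range = 12 ∨
      Nat.card φ.range = 24 := by
    obtain ⟨c, hc⟩ := hd2
    rw [hc] at hd1 hle hpos ⊢
    have hc6 : c ≤ 6 := by omega
    interval_cases c <;> omega
  rcases hcases with h | h | h | h
  · exact Or.inl (IsPGroup.of_card (p := 2) (n := 2) (by rw [h]; norm_num)).isNilpotent
  · exact Or.inl (IsPGroup.of_card (p := 2) (n := 3) (by rw [h]; norm_num)).isNilpotent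
  · right
    apply Equiv.Perm.eq_alternatingGroup_of_index_eq_two
    have h5 := φ.range.card_mul_index
    rw [hperm, h] at h5
    omega
  · exfalso
    have h5 := φ.range.card_mul_index
    rw [hperm, h] at h5
    have h6 : φ.range.index = 1 := by omega
    exact ser_surj V hV4 hn φ (MonoidHom.range_eq_top.1 (Subgroup.index_eq_one.1 h6))

end H86.WP
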