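import Pool.Agent.H86.WP.Fin
import Pool.Agent.H86.WP.SerB
import Pool.Agent.H51.TC.Sc
import Pool.Agent.H88.A4.Fin1

/-!
# WP-W1P: the counting hypothesis of `H51/TC` for all groups in `CF` (complete)

* `rba_cf`: `H` finite with a normal series with central factors, except at most one of order dividing 4: `RBA Q H`, from the count of
  the surjective homomorphisms to `A_4`.
* `w1p_of`, `w1p`: `H51.TC.W1P`.
-/

set_option autoImplicit false

open scoped NumberField
open IsDedekindDomain NumberField H38.ML H63.MA H38.WM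
open scoped commutatorElement

noncomputable section

namespace H86.WP

/-- the quotient by a term above the exceptional factor is nilpotent -/
private theorem w1_nil {H : Type} [Group H] (k j : ℕ) (N : ℕ → Subgroup H) (hk : N k = ⊤)
    (hn : ∀ i, (N i).Normal) (hj : j + 1 ≤ k)
    (hs : ∀ i < k, i ≠ j → ∀ x ∈ N (i + 1), ∀ g : H, g * x * g⁻¹ * x⁻¹ ∈ N i) :
    haveI := hn (j + 1)
    Group.IsNilpotent (H ⧸ N (j + 1)) := by
  have hB := hn (j + 1)
  have h1 : ∀ i, j + 1 + i ≤ k → (N (j + 1 + i)).map (QuotientGroup.mk' (N (j + 1))) ≤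
      Subgroup.upperCentralSeries (H ⧸ N (j + 1)) i := by
    intro i
    induction i with
    | zero =>
      intro _
      rintro _ ⟨x, hx, rfl⟩
      rw [Subgroup.upperCentralSeries_zero, Subgroup.mem_bot]
      exact (QuotientGroup.eq_one_iff x).2 hx
    | succ i ih =>
      intro hi
      rintro _ ⟨x, hx, rfl⟩
      rw [Subgroup.mem_upperCentralSeries_succ_iff]
      intro y
      obtain ⟨g, rfl⟩ := QuotientGroup.mk'_surjective (N (j + 1)) y
      have h2 := hs (j + 1 + i) (by omega) (by omega) x hx g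
      refine ih (by omega) ⟨(g * x * g⁻¹ * x⁻¹)⁻¹, (N (j + 1 + i)).inv_mem h2, ?_⟩
      rw [commutatorElement_def, ← map_mul, ← map_inv, ← map_mul, ← map_inv, ← map_mul]
      congr 1
      group
  obtain ⟨i, hi⟩ : ∃ i, j + 1 + i = k := ⟨k - (j + 1), by omega⟩
  refine ⟨i, ?_⟩
  rw [eq_top_iff]
  refine le_trans ?_ (h1 i hi.le)
  rw [hi, hk, Subgroup.map_top_of_surjective _ (QuotientGroup.mk'_surjective _)]

private theorem w1_cen {H : Type} [Group H] (k j : ℕ) (N : ℕ → Subgroup H) (h0 : N 0 = ⊥)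
    (hs : ∀ i < k, i ≠ j → ∀ x ∈ N (i + 1), ∀ g : H, g * x * g⁻¹ * x⁻¹ ∈ N i) :
    ∀ i, i ≤ k → i ≤ j → N i ≤ Subgroup.upperCentralSeries H i := by
  intro i
  induction i with
  | zero =>
    intro _ _
    rw [h0]
    exact bot_le
  | succ i ih =>
    intro hi hij x hx
    rw [Subgroup.mem_upperCentralSeries_succ_iff]
    intro g
    have h2 := hs i (by omega) (by omega) x hx g
    have h3 : ⁅x, g⁆ = (g * x * g⁻¹ * x⁻¹)⁻¹ := by
      rw [commutatorElement_def]
      group
    rw [h3]
    exact Subgroup.inv_mem _ (ih (by omega) (by omega) h2)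

variable {K : IntermediateField ℚ QBar} [NumberField K]

theorem rba_ser (Q : DP K QBar) (h4 : RB Q (alternatingGroup (Fin 4))) {G : Type} [Group G]
    [Finite G] (V : Subgroup G) [hV : V.Normal] (hV4 : Nat.card V ∣ 4)
    (hn : Group.IsNilpotent (G ⧸ V)) : RBA Q G := by
  obtain ⟨φ, k, hk, h⟩ := ser_grp V hV4 hn
  refine rba_hyp Q φ.rangeRestrict k ?_ ?_
  · rw [MonoidHom.ker_rangeRestrict]
    exact hk
  · rcases h with h | h
    · exact rba_nil Q φ.range h
    · rw [h]
      exact rba_a4 Q h4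

theorem rba_cf (Q : DP K QBar) (h4 : RB Q (alternatingGroup (Fin 4))) (H : Type) [Group H]
    [Finite H] (h : H51.TC.CF H) : RBA Q H := by
  obtain ⟨k, j, N, h0, hk, hn, hs⟩ := h
  have hs' : ∀ i < k, i ≠ j → ∀ x ∈ N (i + 1), ∀ g : H, g * x * g⁻¹ * x⁻¹ ∈ N i :=
    fun i hi => (hs i hi).2.1
  rcases Nat.lt_or_ge j k with hj | hj
  · have hA := hn j
    have hB := hn (j + 1)
    have hAB : N j ≤ N (j + 1) := (hs j hj).1
    have hV : ((N (j + 1)).map (QuotientGroup.mk' (N j))).Normal :=
      hB.map _ (QuotientGroup.mk'_surjective (N j))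
    have hcard : Nat.card ((N (j + 1)).map (QuotientGroup.mk' (N j))) ∣ 4 := by
      have h1 : (N j).relIndex (N (j + 1)) =
          Nat.card ((N (j + 1)).map (QuotientGroup.mk' (N j))) := by
        have h2 := Subgroup.relIndex_ker (K := N (j + 1)) (QuotientGroup.mk' (N j))
        rw [QuotientGroup.ker_mk'] at h2
        exact h2
      rw [← h1]
      exact (hs j hj).2.2 rfl
    have hnil : Group.IsNilpotent ((H ⧸ N j) ⧸ (N (j + 1)).map (QuotientGroup.mk' (N j))) := by
      have h1 := w1_nil k j N hk hn hj hs'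
      exact Group.nilpotent_of_mulEquiv
        (QuotientGroup.quotientQuotientEquivQuotient (N j) (N (j + 1)) hAB).symm
    have h1 : RBA Q (H ⧸ N j) := rba_ser Q h4 _ hcard hnil
    refine rba_hyp Q (QuotientGroup.mk' (N j)) j ?_ h1
    rw [QuotientGroup.ker_mk']
    exact w1_cen k j N h0 hs' j hj.le le_rfl
  · refine rba_nil Q H ⟨k, ?_⟩
    rw [eq_top_iff, ← hk]
    exact w1_cen k j N h0 hs' k le_rfl hj

/-- from `RBA` to the form of `H51/TC` -/
theorem rb_tc (H : Type) [Group H] (h : ∀ Q : DP K QBar, RBA Q H) : H51.TC.RB K QBar H := by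
  intro Q ε hε
  obtain ⟨C, -, hC⟩ := h Q ε hε
  refine ⟨C, fun Y hY Rs hRs => hC Y hY Rs fun φ hφ => ⟨(hRs φ hφ).1, fun S hS => ?_⟩⟩
  exact (hRs φ hφ).2 S hS

theorem w1p : H51.TC.W1P := by
  intro n _
  let z : QBar := Classical.choose (HasEnoughRootsOfUnity.exists_primitiveRoot QBar 3)
  have hz : IsPrimitiveRoot z 3 :=
    Classical.choose_spec (HasEnoughRootsOfUnity.exists_primitiveRoot QBar 3)
  refine ⟨IntermediateField.adjoin ℚ {z}, ?_, fun K hK hKf H _ _ _ hCF => ?_⟩
  · have h1 : FiniteDimensional ℚ (IntermediateField.adjoin ℚ {z}) :=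
      IntermediateField.adjoin.finiteDimensional (Algebra.IsIntegral.isIntegral z)
    exact { to_charZero := inferInstance, to_finiteDimensional := h1 }
  · have hzK : z ∈ K := hK (IntermediateField.mem_adjoin_simple_self ℚ z)
    have hω : IsPrimitiveRoot (⟨z, hzK⟩ : K) 3 := by
      refine IsPrimitiveRoot.of_map_of_injective (f := algebraMap K QBar) ?_
        (algebraMap K QBar).injective
      exact hz
    exact rb_tc H fun Q => rba_cf Q (rb_core ⟨z, hzK⟩ hω
      (H88.A4.coreBound K ⟨z, hzK⟩ hω) Q) H hCF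

end H86.WP
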